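import Pool.Agent.TH71.GR.Levs

set_option autoImplicit false

/-!
# The final assembly
-/

namespace Pool.Agent.TH71.GR

open Pool.Agent.NPC Pool.Agent.H558R2 Pool.Agent.H622R3.SM Pool.Agent.W920.FC Pool.Agent.W920.FD
open Pool.Agent.TH71.PG

/-- The class of matrices: there are nonzero factors `ρ i` of the rows and `γ j` of the columns, and
at most `k` exceptional rows and `k` exceptional columns, such that all products of at most
`(m + n) ^ 6` numbers `ρ i * A i j * γ j` outside the exceptional rows and columns are integer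
combinations of `(m + n) ^ k` real numbers, with coefficients at most `2 ^ ((m + n) ^ k)`. -/
def Growth (k m n : ℕ) (A : Matrix (Fin m) (Fin n) ℝ) : Prop :=
  ∃ (R : Finset (Fin m)) (C : Finset (Fin n)) (ρ : Fin m → ℝ) (γ : Fin n → ℝ)
    (w : Fin ((m + n) ^ k) → ℝ), R.card ≤ k ∧ C.card ≤ k ∧ (∀ i, ρ i ≠ 0) ∧ (∀ j, γ j ≠ 0) ∧
    ∀ l : List (Fin m × Fin n), l.length ≤ (m + n) ^ 6 → (∀ p ∈ l, p.1 ∉ R ∧ p.2 ∉ C) →
      ∃ y : Fin ((m + n) ^ k) → ℤ, (∀ r, |y r| ≤ 2 ^ ((m + n) ^ k)) ∧
        (l.map fun p => ρ p.1 * A p.1 p.2 * γ p.2).prod = ∑ r, y r * w r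

namespace TFIN

open TLV

/-- the scaled entries -/
noncomputable def gM (m : ℕ) (g : Reg → ℝ) (σ : ℕ → ℝ) : Reg → ℝ
  | [0, i, j] => σ i * g [0, i, j] * σ (m + j)
  | _ => 0

/-- from the matrices to the registers -/
theorem growth_reg (k m n : ℕ) (A : Matrix (Fin m) (Fin n) ℝ) (b : Fin m → ℝ)
    (h : Growth k m n A) : ∃ i < (cands k m n).length, GrowthR k m n (cd k m n i) (start A b) := by
  classical
  obtain ⟨R, C, ρ, γ, w, hR, hC, hρ, hγ, hl⟩ := h
  obtain ⟨Rl, hRl, hRl2⟩ := TP1.pad k m R hR
  obtain ⟨Cl, hCl, hCl2⟩ := TP1.pad k n C hC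
  obtain ⟨i0, hi0, he⟩ := TP1.mem_cands hRl hCl
  refine ⟨i0, hi0, ?_⟩
  have hcd : cd k m n i0 = (Rl, Cl) := he
  rw [hcd]
  obtain ⟨σ, hσ⟩ : ∃ σ : ℕ → ℝ, σ = fun v => if h : v < m then ρ ⟨v, h⟩ else
      if h : v - m < n then γ ⟨v - m, h⟩ else 1 := ⟨_, rfl⟩
  have hσ1 : ∀ i : Fin m, σ i = ρ i := by
    intro i
    rw [hσ]
    simp
  have hσ2 : ∀ j : Fin n, σ (m + j) = γ j := by
    intro j
    rw [hσ]
    simp
  refine ⟨σ, gM m (start A b) σ, fun r => if h : r < (m + n) ^ k then w ⟨r, h⟩ else 0,
    ⟨?_, fun i _ j _ _ _ => rfl⟩, ?_⟩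
  · intro v
    rw [hσ]
    dsimp only
    split_ifs
    · exact hρ _
    · exact hγ _
    · exact one_ne_zero
  · intro e he1 he2
    have key : ∀ e : List Reg, (∀ r ∈ e, Ent m n (Rl, Cl) r) → ∃ l : List (Fin m × Fin n),
        l.length = e.length ∧ (∀ p ∈ l, p.1 ∉ R ∧ p.2 ∉ C) ∧
        vl (gM m (start A b) σ) e = (l.map fun p => ρ p.1 * A p.1 p.2 * γ p.2).prod := by
      intro e
      induction e with
      | nil => exact fun _ => ⟨[], rfl, by simp, rfl⟩
      | cons r e ih =>
        intro h
        obtain ⟨l, h1, h2, h3⟩ := ih fun r hr => h r (by simp [hr])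
        obtain ⟨i, hi, j, hj, rfl, hiR, hjC⟩ := h r (by simp)
        refine ⟨(⟨i, hi⟩, ⟨j, hj⟩) :: l, by simp [h1], ?_, ?_⟩
        · intro p hp
          rcases List.mem_cons.1 hp with rfl | hp
          · exact ⟨fun hh => hiR (hRl2 _ hh), fun hh => hjC (hCl2 _ hh)⟩
          · exact h2 p hp
        · have e1 : vl (gM m (start A b) σ) ([0, i, j] :: e) =
              (σ i * start A b [0, i, j] * σ (m + j)) * vl (gM m (start A b) σ) e := by
            simp [vl, gM]
          have e2 := hσ1 ⟨i, hi⟩
          have e3 := hσ2 ⟨j, hj⟩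
          have e4 : start A b [0, i, j] = A ⟨i, hi⟩ ⟨j, hj⟩ := by
            show (if h : i < m ∧ j < n then A ⟨i, h.1⟩ ⟨j, h.2⟩ else 0) = _
            rw [dif_pos ⟨hi, hj⟩]
          rw [e1, h3, List.map_cons, List.prod_cons, e4]
          dsimp only at e2 e3 ⊢
          rw [e2, e3]
    obtain ⟨l, h1, h2, h3⟩ := key e he2
    obtain ⟨y, hy1, hy2⟩ := hl l (by rw [h1]; exact he1) h2
    refine ⟨fun r => if h : r < (m + n) ^ k then y ⟨r, h⟩ else 0, ?_, ?_⟩
    · intro r hr
      dsimp only
      rw [dif_pos hr]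
      have h4 := hy1 ⟨r, hr⟩
      rw [Int.abs_eq_natAbs] at h4
      exact_mod_cast h4
    · rw [h3, hy2, Finset.sum_range]
      refine Finset.sum_congr rfl fun r _ => ?_
      dsimp only
      rw [dif_pos r.2, dif_pos r.2]

theorem getD_poss {β : Type} (f : ℕ × ℕ → β) (d : β) (n : ℕ) : ∀ m i j : ℕ, i < m → j < n →
    ((poss m n).map f).getD (i * n + j) d = f (i, j)
  | 0, i, j, hi, _ => absurd hi (Nat.not_lt_zero _)
  | m + 1, i, j, hi, hj => by
    have e : poss (m + 1) n = poss m n ++ (List.range n).map fun j => (m, j) := by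
      unfold poss
      rw [List.range_succ, List.flatMap_append]
      simp
    rw [e, List.map_append]
    rcases Nat.lt_succ_iff_lt_or_eq.1 hi with h | h
    · rw [List.getD_append _ _ _ _ (by
        rw [List.length_map, len_poss]
        calc i * n + j < i * n + n := by omega
          _ = (i + 1) * n := by ring
          _ ≤ m * n := Nat.mul_le_mul_right _ h)]
      exact getD_poss f d n m i j h hj
    · subst h
      rw [List.getD_append_right _ _ _ _ (by rw [List.length_map, len_poss]; omega),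
        List.length_map, len_poss, Nat.add_sub_cancel_left]
      rw [List.getD_eq_getElem _ _ (by simpa using hj)]
      simp

/-- The signs of the entries. -/
noncomputable def sup (m n : ℕ) (g : Reg → ℝ) : List Outcome := (poss m n).map fun p => signOut (g [0, p.1, p.2])

theorem ok_sup (m n : ℕ) (g : Reg → ℝ) : OK0 m n g (sup m n g) := fun i hi j hj =>
  getD_poss (fun p => signOut (g [0, p.1, p.2])) none n m i j hi hj

theorem run_sup (m n : ℕ) (g : Reg → ℝ) (G : ℝ → Prop) :
    Runs g G (batch (supQs m n)) (sup m n g) (m * n) := by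
  have h := lBATCH g G (supQs m n) ((poss m n).map fun p => g [0, p.1, p.2]) (by
    unfold supQs
    refine TTRY.forall2_map _ _ _ fun p _ => ?_
    refine ⟨trivial, g, fun r _ => rfl, by simp, Or.inl ?_, rfl⟩
    show (0 : ℕ) < 4
    norm_num)
  rw [List.map_map] at h
  have e : ((supQs m n).map fun q => q.1.length + 1).sum = m * n := by
    unfold supQs
    rw [List.map_map]
    simp [Function.comp_def, len_poss]
  rw [e] at h
  exact h

theorem run_pot (m n : ℕ) (c : Cand) (o : List Outcome) (g : Reg → ℝ) (G : ℝ → Prop) (t : ℕ) :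
    Runs g G (iter (fun x => ret (lpS m n c o x)) t (lp0 m n)) (pot m n c o t) 0 := by
  have h := lITER _ g G (fun x => ret (lpS m n c o x)) (fun i => pot m n c o i) t 0 (fun i _ => by
    have e : pot m n c o (i + 1) = lpS m n c o (pot m n c o i) := by
      unfold pot
      rw [Function.iterate_succ_apply']
    simp only [e]
    exact TTRY.runs_ret _ _ _)
  rw [mul_zero] at h
  exact h

/-! ### The final lists -/

section

variable {m n : ℕ} {c : Cand} {g : Reg → ℝ} {o : List Outcome}

theorem ent_base' {r : Reg} (h : Ent m n c r ∧ g r ≠ 0) : r ∈ baseReg := ent_base h.1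

variable (hP : S_POT1) (ho : OK0 m n g o)

include hP ho

theorem aP_ok : (∀ r ∈ aP (m + n) (pot m n c o (stp (m + n))), r ∈ baseReg) ∧
    (aP (m + n) (pot m n c o (stp (m + n)))).length ≤ (m + n) * stp (m + n) := by
  have h := hP m n c g o ho (stp (m + n))
  refine ⟨?_, ?_⟩
  · intro r hr
    unfold aP at hr
    rw [List.mem_flatMap] at hr
    obtain ⟨v, -, hr⟩ := hr
    exact ent_base' ((h v).2.2.2 r hr)
  · unfold aP
    exact TV1LEN.len_fr _ _ _ fun v => (h v).2.1

theorem aq_ok (v : ℕ) : (∀ r ∈ aq (m + n) (pot m n c o (stp (m + n))) v, r ∈ baseReg) ∧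
    (aq (m + n) (pot m n c o (stp (m + n))) v).length ≤ (m + n + 1) * stp (m + n) := by
  have h := hP m n c g o ho (stp (m + n))
  refine ⟨?_, ?_⟩
  · intro r hr
    unfold aq at hr
    rcases List.mem_append.1 hr with hr | hr
    · exact ent_base' ((h v).2.2.1 r hr)
    · rw [List.mem_flatMap] at hr
      obtain ⟨v, -, hr⟩ := hr
      exact ent_base' ((h v).2.2.2 r hr)
  · unfold aq
    rw [List.length_append]
    have h1 := TV1LEN.len_le ((List.range (m + n)).filter fun u => !(decide (u = v)))
      (fun u => de (pot m n c o (stp (m + n))) u) (stp (m + n)) (fun u _ => (h u).2.1)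
    have h2 : ((List.range (m + n)).filter fun u => !(decide (u = v))).length ≤ m + n := by
      have := List.length_filter_le (fun u => !(decide (u = v))) (List.range (m + n))
      rwa [List.length_range] at this
    have h3 := Nat.mul_le_mul_right (stp (m + n)) h2
    have h4 := (h v).1
    have h5 : (m + n + 1) * stp (m + n) = (m + n) * stp (m + n) + stp (m + n) := by ring
    omega

theorem at1_ok : ∀ a ∈ at1 m n (pot m n c o (stp (m + n))), (∀ r ∈ a, r ∈ baseReg) ∧
    a.length ≤ 1 + 2 * ((m + n + 1) * stp (m + n)) := by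
  intro a ha
  obtain ⟨p1, p2⟩ := aP_ok (c := c) hP ho
  have q := fun v => aq_ok (c := c) hP ho v
  have h5 : (m + n + 1) * stp (m + n) = (m + n) * stp (m + n) + stp (m + n) := by ring
  unfold at1 at ha
  rw [List.mem_cons, List.mem_append, List.mem_map, List.mem_map] at ha
  rcases ha with rfl | ⟨p, -, rfl⟩ | ⟨i, -, rfl⟩
  · unfold a1
    refine ⟨?_, ?_⟩
    · intro r hr
      rcases List.mem_append.1 hr with hr | hr
      · exact p1 r hr
      · exact p1 r hr
    · rw [List.length_append]
      omega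
  · unfold ae
    refine ⟨?_, ?_⟩
    · intro r hr
      rw [List.mem_cons, List.mem_append] at hr
      rcases hr with rfl | hr | hr
      · simp [baseReg]
      · exact (q _).1 r hr
      · exact (q _).1 r hr
    · rw [List.length_cons, List.length_append]
      have h1 := (q p.1).2
      have h2 := (q (m + p.2)).2
      omega
  · unfold ab
    refine ⟨?_, ?_⟩
    · intro r hr
      rw [List.mem_cons, List.mem_append] at hr
      rcases hr with rfl | hr | hr
      · simp [baseReg]
      · exact (q _).1 r hr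
      · exact p1 r hr
    · rw [List.length_cons, List.length_append]
      have h1 := (q i).2
      omega

theorem kl_ok : ∀ a ∈ kl m n (pot m n c o (stp (m + n))), (∀ r ∈ a, r ∈ baseReg) ∧
    a.length ≤ (m + n + 1) * stp (m + n) := by
  intro a ha
  obtain ⟨p1, p2⟩ := aP_ok (c := c) hP ho
  have h5 : (m + n + 1) * stp (m + n) = (m + n) * stp (m + n) + stp (m + n) := by ring
  unfold kl at ha
  rw [List.mem_cons, List.mem_map] at ha
  rcases ha with rfl | ⟨v, -, rfl⟩
  · exact ⟨p1, by omega⟩
  · exact aq_ok (c := c) hP ho v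

end

theorem len_catL (G : List (List Reg)) : ∀ κ : ℕ, (catL G κ).length = G.length ^ κ
  | 0 => rfl
  | κ + 1 => by
    unfold catL
    rw [List.length_flatMap]
    simp only [List.length_map, len_catL G κ, List.map_const', List.sum_replicate, smul_eq_mul]
    ring

theorem mem_catL (G : List (List Reg)) (a : ℕ) (hG : ∀ e ∈ G, (∀ r ∈ e, r ∈ baseReg) ∧
    e.length ≤ a) : ∀ (κ : ℕ) (e : List Reg), e ∈ catL G κ → (∀ r ∈ e, r ∈ baseReg) ∧
    e.length ≤ κ * a
  | 0, e, h => by
    simp only [catL, List.mem_singleton] at h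
    subst h
    simp
  | κ + 1, e, h => by
    simp only [catL, List.mem_flatMap, List.mem_map] at h
    obtain ⟨r, hr, e', he', rfl⟩ := h
    obtain ⟨h1, h2⟩ := mem_catL G a hG κ e' he'
    obtain ⟨h3, h4⟩ := hG r hr
    refine ⟨?_, ?_⟩
    · intro x hx
      rcases List.mem_append.1 hx with hx | hx
      · exact h3 x hx
      · exact h1 x hx
    · rw [List.length_append, add_mul, one_mul]
      omega

theorem len_at1 (m n : ℕ) (x : PS) : (at1 m n x).length = 1 + (m * n + m) := by
  unfold at1
  rw [List.length_cons, List.length_append, List.length_map, List.length_map, List.length_range,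
    len_poss]
  omega

theorem len_kl (m n : ℕ) (x : PS) : (kl m n x).length = 1 + (m + n) := by
  unfold kl
  rw [List.length_cons, List.length_map, List.length_range]
  omega

theorem len_lfin (k m n : ℕ) (x : PS) (B : List (List Reg)) : (lfin k m n x B).length =
    1 + B.length * ((1 + (m * n + m)) ^ (2 * k + 1) * (1 + (m + n))) := by
  unfold lfin
  rw [List.length_cons, List.length_flatMap]
  have h : ∀ e : List Reg, ((catL (at1 m n x) (2 * k + 1)).flatMap fun f =>
      (kl m n x).map fun q => e ++ (f ++ q)).length =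
      (1 + (m * n + m)) ^ (2 * k + 1) * (1 + (m + n)) := by
    intro e
    rw [List.length_flatMap]
    simp only [List.length_map, List.map_const', List.sum_replicate, smul_eq_mul, len_catL,
      len_at1, len_kl]
  simp only [h, List.map_const', List.sum_replicate, smul_eq_mul]
  ring

theorem lfin_ok {k m n : ℕ} {c : Cand} {g : Reg → ℝ} {o : List Outcome} (hP : S_POT1)
    (ho : OK0 m n g o) (B : List (List Reg)) (hB1 : LOK B)
    (hB2 : ∀ e ∈ B, e.length ≤ m * (1 + 2 * ((m + n + 1) * stp (m + n)))) :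
    LOK (lfin k m n (pot m n c o (stp (m + n))) B) ∧
    ∀ e ∈ lfin k m n (pot m n c o (stp (m + n))) B, e.length ≤ gT k (m + n) := by
  have key : ∀ e ∈ lfin k m n (pot m n c o (stp (m + n))) B, (∀ r ∈ e, r ∈ baseReg) ∧
      e.length ≤ gT k (m + n) := by
    intro e he
    unfold lfin at he
    rw [List.mem_cons, List.mem_flatMap] at he
    rcases he with rfl | ⟨e0, he0, he⟩
    · simp
    · rw [List.mem_flatMap] at he
      obtain ⟨f, hf, he⟩ := he
      rw [List.mem_map] at he
      obtain ⟨q, hq, rfl⟩ := he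
      obtain ⟨h1, h2⟩ := mem_catL _ _ (at1_ok (c := c) hP ho) _ f hf
      obtain ⟨h3, h4⟩ := kl_ok (c := c) hP ho q hq
      have h5 := hB2 e0 he0
      refine ⟨?_, ?_⟩
      · intro r hr
        rcases List.mem_append.1 hr with hr | hr
        · exact hB1 e0 he0 r hr
        · rcases List.mem_append.1 hr with hr | hr
          · exact h1 r hr
          · exact h3 r hr
      · rw [List.length_append, List.length_append]
        have h6 : gT k (m + n) = (m + n) * (1 + 2 * ((m + n + 1) * stp (m + n))) +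
            ((2 * k + 1) * (1 + 2 * ((m + n + 1) * stp (m + n))) +
              (1 + 2 * ((m + n + 1) * stp (m + n)))) := by
          unfold gT
          ring
        have h7 : m * (1 + 2 * ((m + n + 1) * stp (m + n))) ≤
            (m + n) * (1 + 2 * ((m + n + 1) * stp (m + n))) := Nat.mul_le_mul_right _ (by omega)
        omega
  exact ⟨fun e he => (key e he).1, fun e he => (key e he).2⟩

theorem len_cands {k m n : ℕ} {c : Cand} (h : c ∈ cands k m n) :
    c.1.length = k ∧ c.2.length = k := TTRY.mem_cands k m n c h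

end TFIN

open TFIN

/-- One choice of exceptional rows and columns. -/
theorem run_TC (k : ℕ) (hL : S_LEVS k) (hAt : S_ATOM) (hP : S_POT1) (hM : S_MINR) :
    ∃ q : Polynomial ℕ, ∀ (m n : ℕ) (A : Matrix (Fin m) (Fin n) ℝ) (b : Fin m → ℝ), 1 ≤ m →
      1 ≤ n → ∀ i < (cands k m n).length, ∃ ans : Bool,
        (∀ b' : Bool, Runs (start A b) (Gd q (m + n) (start A b))
          (TC k m n (sup m n (start A b)) (i, b')) (i + 1, b' || ans) (q.eval (m + n))) ∧
        (ans = true → SolE m n (start A b)) ∧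
        (GrowthR k m n (cd k m n i) (start A b) → (∃ x : Fin n → ℝ, b ≤ A.mulVec x) →
          ans = true) := by
  obtain ⟨q1, h1⟩ := hL
  obtain ⟨qb, hb⟩ := TLV.bounds k
  set pB : Polynomial ℕ := qb + (1 + (qb + 1) *
    ((1 + (Polynomial.X * Polynomial.X + Polynomial.X)) ^ (2 * k + 1) * (1 + Polynomial.X)))
    with hpB
  obtain ⟨q2, h2⟩ := runTL pB
  refine ⟨q1 + q2, ?_⟩
  intro m n A b hm hn i hi
  obtain ⟨b1, -, -, -, b5, b6⟩ := hb m n
  set g := start A b with hg
  have hbase : Base g := TFINAL.base_start A b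
  have ho := ok_sup m n g
  set o := sup m n g with hod
  set c := cd k m n i with hc
  have hcm : c ∈ cands k m n := by
    rw [hc]
    unfold cd
    rw [List.getD_eq_getElem _ _ hi]
    exact List.getElem_mem hi
  obtain ⟨hc1, hc2⟩ := len_cands hcm
  obtain ⟨B, rB, B1, B2, B3, B4, B5⟩ := h1 m n c g o hm hn hbase ho
  set x := pot m n c o (stp (m + n)) with hx
  obtain ⟨l1, l2⟩ := lfin_ok (k := k) (c := c) hP ho B B1 B4
  have ev : pB.eval (m + n) = qb.eval (m + n) + (1 + (qb.eval (m + n) + 1) *
      ((1 + ((m + n) * (m + n) + (m + n))) ^ (2 * k + 1) * (1 + (m + n)))) := by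
    simp [hpB]
  have hlen : (lfin k m n x B).length ≤ pB.eval (m + n) := by
    rw [len_lfin, ev]
    have h3 : B.length ≤ qb.eval (m + n) + 1 := by omega
    have h4 : 1 + (m * n + m) ≤ 1 + ((m + n) * (m + n) + (m + n)) := by
      have : m * n ≤ (m + n) * (m + n) := Nat.mul_le_mul (by omega) (by omega)
      omega
    have h5 := Nat.mul_le_mul h3 (Nat.mul_le_mul_right (1 + (m + n))
      (Nat.pow_le_pow_left h4 (2 * k + 1)))
    omega
  have hw0 : wl g (gT k (m + n)) (lfin k m n x B) 0 = 1 := by
    unfold wl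
    have : (lfin k m n x B).getD 0 [] = [] := rfl
    rw [this, pv_eq hbase.1 _ _ (by simp)]
    rfl
  obtain ⟨ans, r3, s1, s2⟩ := h2 m n (gT k (m + n)) (gh1 k (m + n)) g (lfin k m n x B) hbase
    (by rw [ev]; omega) (by rw [ev]; omega) hlen (by rw [len_lfin]; omega) l1 hw0
  have e1 : ∀ x, q1.eval x ≤ (q1 + q2).eval x := fun x => by
    simp only [Polynomial.eval_add]; omega
  have e2 : ∀ x, q2.eval x ≤ (q1 + q2).eval x := fun x => by
    simp only [Polynomial.eval_add]; omega
  have r1' := lMONO _ g _ _ _ _ _ _ (TFINAL.gd_mono (S := m + n) (g := g) e1) le_rfl rB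
  have r3' := lMONO _ g _ _ _ _ _ _ (TFINAL.gd_mono (S := m + n) (g := g) e2) le_rfl r3
  refine ⟨ans, ?_, s1, ?_⟩
  · intro b'
    have r4 : Runs g (Gd (q1 + q2) (m + n) g) (TC k m n o (i, b')) (i + 1, b' || ans)
        (0 + (q1.eval (m + n) + (q2.eval (m + n) + 0))) := by
      unfold TC
      refine lBND _ _ g _ _ _ x _ _ _ (run_pot m n c o g _ (stp (m + n))) ?_
      refine lBND _ _ g _ _ _ B _ _ _ r1' ?_
      exact lBND _ _ g _ _ _ ans _ _ _ r3' (TTRY.runs_ret _ _ _)
    refine lMONO _ g _ _ _ _ _ _ (fun v hv => hv) ?_ r4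
    simp only [Polynomial.eval_add]
    omega
  · intro hGr hfeas
    obtain ⟨C, hC, hp⟩ := B5 hGr
    obtain ⟨a1', a2', -, -⟩ := hAt m n c g o ho
    have hrs := hM k m n (gT k (m + n)) (gh1 k (m + n))
      (2 ^ ((m + n) * (gN0 k (m + n) + gB k (m + n)))) A b c x B C hc1.le hc2.le hC a1' a2' hp l2
      (by
        have h3 : m.factorial ≤ 2 ^ ((m + n) * (m + n)) := (TMIN.fact_le m).trans
          (Nat.pow_le_pow_right (by norm_num) (Nat.mul_le_mul (by omega) (by omega)))
        calc m.factorial * 2 ^ ((m + n) * (gN0 k (m + n) + gB k (m + n))) ≤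
            2 ^ ((m + n) * (m + n)) * 2 ^ ((m + n) * (gN0 k (m + n) + gB k (m + n))) :=
              Nat.mul_le_mul_right _ h3
          _ = 2 ^ gh1 k (m + n) := by
              rw [← pow_add]
              rfl)
    exact s2 fun Lad hLad => t_BFR t_CERT _ (gh1 k (m + n)) m n A b _ Lad hrs hLad hfeas

/-- **The main theorem.** -/
theorem t_FIN (k : ℕ) (hL : S_LEVS k) (hAt : S_ATOM) (hP : S_POT1) (hM : S_MINR) (hC : S_CTL k) :
    PolyControl (algOf (TA k)) ∧ OracleFree (algOf (TA k)) ∧
    StronglyPolynomialOn (fun m n A _ => Growth k m n A) (algOf (TA k)) := by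
  refine assemble _ (TA k) hC ?_
  obtain ⟨q, hq⟩ := run_TC k hL hAt hP hM
  obtain ⟨qc, hqc⟩ := TPB.pb_c k
  refine ⟨q + (Polynomial.X * Polynomial.X + qc * q), ?_⟩
  intro m n hm hn A b hG
  classical
  choose! f hf1 hf2 hf3 using hq m n A b hm hn
  set g := start A b with hg
  obtain ⟨K, hK⟩ : ∃ K, K = (cands k m n).length := ⟨_, rfl⟩
  rw [← hK] at hf1 hf2 hf3
  obtain ⟨bb, hb0, hbs⟩ : ∃ bb : ℕ → Bool, bb 0 = false ∧ ∀ i, bb (i + 1) = (bb i || f i) :=
    ⟨fun i => Nat.rec false (fun i x => x || f i) i, rfl, fun _ => rfl⟩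
  have hR := lITER _ g (Gd q (m + n) g) (TC k m n (sup m n g)) (fun i => (i, bb i)) K
    (q.eval (m + n)) (fun i hi => by
      have := hf1 i hi (bb i)
      rw [← hbs i] at this
      exact this)
  simp only [hb0] at hR
  have e1 : ∀ x, q.eval x ≤ (q + (Polynomial.X * Polynomial.X + qc * q)).eval x := fun x => by
    simp only [Polynomial.eval_add]; omega
  have hR' := lMONO _ g _ _ _ _ _ _ (TFINAL.gd_mono (S := m + n) (g := g) e1) le_rfl hR
  refine ⟨bb K, ?_, ?_⟩
  · have r : Runs g (Gd (q + (Polynomial.X * Polynomial.X + qc * q)) (m + n) g) (TA k m n) (bb K)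
        (m * n + (K * q.eval (m + n) + 0)) := by
      unfold TA
      refine lBND _ _ g _ _ _ (sup m n g) _ _ _ (run_sup m n g _) ?_
      rw [← hK]
      exact lBND _ _ g _ _ _ (K, bb K) _ _ _ hR' (TTRY.runs_ret _ _ _)
    refine lMONO _ g _ _ _ _ _ _ (fun v hv => hv) ?_ r
    have h1 : m * n ≤ (m + n) * (m + n) := Nat.mul_le_mul (by omega) (by omega)
    have h2 : K * q.eval (m + n) ≤ qc.eval (m + n) * q.eval (m + n) := by
      rw [hK]
      exact Nat.mul_le_mul_right _ (hqc m n)
    simp only [Polynomial.eval_add, Polynomial.eval_mul, Polynomial.eval_X]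
    omega
  · constructor
    · intro h
      have key : ∀ i, i ≤ K → bb i = true → SolE m n g := by
        intro i
        induction i with
        | zero =>
          intro _ h
          rw [hb0] at h
          exact absurd h (by simp)
        | succ i ih =>
          intro hi h
          rw [hbs, Bool.or_eq_true] at h
          rcases h with h | h
          · exact ih (by omega) h
          · exact hf2 i (by omega) h
      exact (t_FEAS m n A b).1 (key K le_rfl h)
    · intro h
      obtain ⟨i0, hi0, hGr⟩ := growth_reg k m n A b hG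
      rw [← hK] at hi0
      have h1 := hf3 i0 hi0 hGr h
      have h2 : ∀ i, i0 + 1 ≤ i → bb i = true := by
        intro i hi
        induction i, hi using Nat.le_induction with
        | base => rw [hbs, h1, Bool.or_true]
        | succ i _ ih => rw [hbs, ih, Bool.true_or]
      exact h2 K (by omega)

end Pool.Agent.TH71.GR
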