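import Pool.Agent.H568.LP.MF
import Pool.Agent.TH71.GR.Fin

set_option autoImplicit false

/-!
# A class of polynomial growth: small polynomials in few reals over orders of small degree
-/

namespace Pool.Agent.TH71.GR

open Pool.Agent.H568.LP

/-- After multiplication of the rows and the columns by nonzero reals, and outside at most `k` rows
and `k` columns, the entries are values at real numbers `θ 1, …, θ k` of polynomials with degree at
most `(m + n) ^ k` in each variable, whose coefficients are integer combinations, with coefficients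
at most `2 ^ ((m + n) ^ k)`, of reals `w l`, `l < (m + n) ^ k`, whose products are such
combinations, too. -/
def PolyNum (k m n : ℕ) (A : Matrix (Fin m) (Fin n) ℝ) : Prop :=
  ∃ (R : Finset (Fin m)) (C : Finset (Fin n)) (ρ : Fin m → ℝ) (γ : Fin n → ℝ) (θ : Fin k → ℝ)
    (w : Fin ((m + n) ^ k) → ℝ)
    (c : Fin ((m + n) ^ k) → Fin ((m + n) ^ k) → Fin ((m + n) ^ k) → ℤ)
    (P : Fin m → Fin n → Fin ((m + n) ^ k) → MvPolynomial (Fin k) ℤ),
    R.card ≤ k ∧ C.card ≤ k ∧ (∀ i, ρ i ≠ 0) ∧ (∀ j, γ j ≠ 0) ∧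
    (∀ a b l, |c a b l| ≤ 2 ^ ((m + n) ^ k)) ∧ (∀ a b, w a * w b = ∑ l, c a b l * w l) ∧
    (∀ i j l, (∀ r, (P i j l).degreeOf r ≤ (m + n) ^ k) ∧
      ∀ e, |(P i j l).coeff e| ≤ 2 ^ ((m + n) ^ k)) ∧
    ∀ i ∉ R, ∀ j ∉ C, ρ i * A i j * γ j = ∑ l, w l * MvPolynomial.aeval θ (P i j l)

namespace TCL

variable {k : ℕ} {θ : Fin k → ℝ}

theorem mf_comb {D K : ℕ} {x : ℝ} (h : MF ∅ ∅ θ 0 0 D K x) :
    ∃ y : (Fin k → Fin (D + 1)) → ℤ, (∀ e, (y e).natAbs ≤ K) ∧
      x = ∑ e, (y e : ℝ) * ∏ r, θ r ^ (e r : ℕ) := by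
  classical
  obtain ⟨L, h1, h2, rfl⟩ := h
  suffices hs : ∃ y : (Fin k → Fin (D + 1)) → ℤ,
      (∀ e, (y e).natAbs ≤ (L.map fun p => p.1.natAbs).sum) ∧
      (L.map fun p => (p.1 : ℝ) * p.2).sum = ∑ e, (y e : ℝ) * ∏ r, θ r ^ (e r : ℕ) by
    obtain ⟨y, hy1, hy2⟩ := hs
    exact ⟨y, fun e => (hy1 e).trans h1, hy2⟩
  clear h1
  induction L with
  | nil => exact ⟨fun _ => 0, by simp, by simp⟩
  | cons p L ih =>
    obtain ⟨y, hy1, hy2⟩ := ih fun q hq => h2 q (List.mem_cons_of_mem _ hq)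
    obtain ⟨bs, as, e, h1, h2, -, -, h5, h6⟩ := h2 p List.mem_cons_self
    have hb : bs = [] := List.length_eq_zero_iff.1 (Nat.le_zero.1 h1)
    have ha : as = [] := List.length_eq_zero_iff.1 (Nat.le_zero.1 h2)
    subst hb ha
    obtain ⟨e', he'⟩ : ∃ e' : Fin k → Fin (D + 1), ∀ r, (e' r : ℕ) = e r :=
      ⟨fun r => ⟨e r, Nat.lt_succ_of_le (h5 r)⟩, fun r => rfl⟩
    refine ⟨fun f => y f + if f = e' then p.1 else 0, ?_, ?_⟩
    · intro f
      rw [List.map_cons, List.sum_cons, add_comm p.1.natAbs]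
      refine (Int.natAbs_add_le _ _).trans (Nat.add_le_add (hy1 f) ?_)
      split_ifs
      · exact le_rfl
      · simp
    · rw [List.map_cons, List.sum_cons, hy2, h6]
      have e1 : ∀ f : Fin k → Fin (D + 1), (((y f + if f = e' then p.1 else 0 : ℤ)) : ℝ) *
          ∏ r, θ r ^ (f r : ℕ) = (y f : ℝ) * ∏ r, θ r ^ (f r : ℕ) +
          if f = e' then (p.1 : ℝ) * ∏ r, θ r ^ (f r : ℕ) else 0 := by
        intro f
        split_ifs <;> push_cast <;> ring
      simp only [e1]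
      rw [Finset.sum_add_distrib, Finset.sum_ite_eq' Finset.univ e']
      simp only [Finset.mem_univ, if_true, List.prod_nil, one_mul, he']
      ring

/-- Combinations of the `w l`. -/
def WF {d : ℕ} (θ : Fin k → ℝ) (w : Fin d → ℝ) (D K : ℕ) (x : ℝ) : Prop :=
  ∃ f : Fin d → ℝ, (∀ l, MF ∅ ∅ θ 0 0 D K (f l)) ∧ x = ∑ l, w l * f l

theorem WF.mul {d S : ℕ} {w : Fin d → ℝ} {c : Fin d → Fin d → Fin d → ℤ}
    (hc : ∀ a b l, |c a b l| ≤ 2 ^ S) (hw : ∀ a b, w a * w b = ∑ l, (c a b l : ℝ) * w l)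
    {D K D' K' : ℕ} {x y : ℝ} (hx : WF θ w D K x) (hy : WF θ w D' K' y) :
    WF θ w (D + D') (d * (d * (2 ^ S * (K * K')))) (x * y) := by
  obtain ⟨f, hf, rfl⟩ := hx
  obtain ⟨g, hg, rfl⟩ := hy
  refine ⟨fun l => ∑ a, ∑ b, (c a b l : ℝ) * (f a * g b), ?_, ?_⟩
  · intro l
    have hcard : (Finset.univ : Finset (Fin d)).card = d := by simp
    have h1 : ∀ a b, MF ∅ ∅ θ 0 0 (D + D') (2 ^ S * (K * K')) ((c a b l : ℝ) * (f a * g b)) := by
      intro a b
      have h2 := MF.intMul (c a b l) ((hf a).mul (hg b))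
      refine h2.mono le_rfl le_rfl le_rfl (Nat.mul_le_mul_right _ ?_)
      have h3 := hc a b l
      rw [Int.abs_eq_natAbs] at h3
      exact_mod_cast h3
    have h2 : ∀ a, MF ∅ ∅ θ 0 0 (D + D') (d * (2 ^ S * (K * K')))
        (∑ b, (c a b l : ℝ) * (f a * g b)) := by
      intro a
      have := MF.sum (Finset.univ : Finset (Fin d)) (fun b => (c a b l : ℝ) * (f a * g b))
        fun b _ => h1 a b
      rwa [hcard] at this
    have := MF.sum (Finset.univ : Finset (Fin d))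
      (fun a => ∑ b, (c a b l : ℝ) * (f a * g b)) fun a _ => h2 a
    rwa [hcard] at this
  · have e1 : (∑ a, w a * f a) * ∑ b, w b * g b =
        ∑ a, ∑ b, ∑ l, w l * ((c a b l : ℝ) * (f a * g b)) := by
      rw [Finset.sum_mul_sum]
      refine Finset.sum_congr rfl fun a _ => Finset.sum_congr rfl fun b _ => ?_
      have : w a * f a * (w b * g b) = (w a * w b) * (f a * g b) := by ring
      rw [this, hw, Finset.sum_mul]
      exact Finset.sum_congr rfl fun l _ => by ring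
    rw [e1]
    simp only [Finset.mul_sum]
    rw [Finset.sum_congr rfl fun a _ => Finset.sum_comm (s := Finset.univ) (t := Finset.univ)
      (f := fun b l => w l * ((c a b l : ℝ) * (f a * g b)))]
    exact Finset.sum_comm

theorem WF.prod {d S : ℕ} {w : Fin d → ℝ} {c : Fin d → Fin d → Fin d → ℤ} (hd : 1 ≤ d)
    (hc : ∀ a b l, |c a b l| ≤ 2 ^ S) (hw : ∀ a b, w a * w b = ∑ l, (c a b l : ℝ) * w l)
    {D K : ℕ} (x : ℝ) (hx : WF θ w D K x) : ∀ l : List ℝ, (∀ x ∈ l, WF θ w D K x) →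
      WF θ w ((l.length + 1) * D) ((d * (d * (2 ^ S * K))) ^ (l.length + 1)) (x * l.prod) := by
  intro l
  induction l with
  | nil =>
    intro _
    obtain ⟨f, hf, h⟩ := hx
    refine ⟨f, fun l => (hf l).mono le_rfl le_rfl (by simp) ?_, by simpa using h⟩
    have h1 : 1 ≤ 2 ^ S := Nat.one_le_two_pow
    rw [List.length_nil, zero_add, pow_one]
    calc K = 1 * (1 * (1 * K)) := by ring
      _ ≤ d * (d * (2 ^ S * K)) :=
        Nat.mul_le_mul hd (Nat.mul_le_mul hd (Nat.mul_le_mul_right _ h1))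
  | cons y l ih =>
    intro h
    have h1 := ih fun z hz => h z (List.mem_cons_of_mem _ hz)
    have h2 := WF.mul hc hw (h y List.mem_cons_self) h1
    obtain ⟨f, hf, h3⟩ := h2
    refine ⟨f, fun l => (hf l).mono le_rfl le_rfl ?_ ?_, ?_⟩
    · rw [List.length_cons]
      apply le_of_eq
      ring
    · rw [List.length_cons]
      apply le_of_eq
      ring
    · rw [List.prod_cons, ← h3]
      ring

/-- Transfer to `Fin K`. -/
theorem toFin {ι : Type} [Fintype ι] {K : ℕ} (hK : Fintype.card ι ≤ K) (v : ι → ℝ) :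
    ∃ W : Fin K → ℝ, ∀ (y : ι → ℤ) (B : ℤ), 0 ≤ B → (∀ i, |y i| ≤ B) → ∃ y' : Fin K → ℤ,
      (∀ r, |y' r| ≤ B) ∧ ∑ i, (y i : ℝ) * v i = ∑ r, (y' r : ℝ) * W r := by
  classical
  obtain ⟨φ⟩ : Nonempty (ι ↪ Fin K) := Function.Embedding.nonempty_of_card_le (by simpa using hK)
  refine ⟨Function.extend φ v 0, fun y B hB hy => ⟨Function.extend φ y 0, ?_, ?_⟩⟩
  · intro r
    by_cases h : ∃ i, φ i = r
    · obtain ⟨i, rfl⟩ := h
      rw [φ.injective.extend_apply]
      exact hy i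
    · rw [Function.extend_apply' _ _ _ h]
      simpa using hB
  · refine Fintype.sum_of_injective φ φ.injective _ _ ?_ ?_
    · intro r hr
      rw [Function.extend_apply' y (0 : Fin K → ℤ) r (fun ⟨i, hi⟩ => hr ⟨i, hi⟩)]
      simp
    · intro i
      rw [φ.injective.extend_apply, φ.injective.extend_apply]

theorem succ_le_two_pow (x : ℕ) : x + 1 ≤ 2 ^ x := Nat.lt_two_pow_self

/-- The size of the coefficients. -/
theorem size_bound {k s : ℕ} (hs : 2 ≤ s) (N : ℕ) (hN : N ≤ s ^ 6) :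
    (s ^ k * (s ^ k * (2 ^ s ^ k * ((s ^ k + 1) ^ k * 2 ^ s ^ k)))) ^ N ≤
      2 ^ s ^ (k * k + 8 * k + 10) := by
  have h1 : s ^ k ≤ 2 ^ s ^ k := (Nat.le_succ _).trans (succ_le_two_pow _)
  have h2 : (s ^ k + 1) ^ k ≤ 2 ^ (s ^ k * k) := by
    rw [pow_mul]
    exact Nat.pow_le_pow_left (succ_le_two_pow _) k
  have h3 : s ^ k * (s ^ k * (2 ^ s ^ k * ((s ^ k + 1) ^ k * 2 ^ s ^ k))) ≤
      2 ^ (s ^ k * (k + 4)) := by
    calc _ ≤ 2 ^ s ^ k * (2 ^ s ^ k * (2 ^ s ^ k * (2 ^ (s ^ k * k) * 2 ^ s ^ k))) :=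
          Nat.mul_le_mul h1 (Nat.mul_le_mul h1 (Nat.mul_le_mul_left _ (Nat.mul_le_mul_right _ h2)))
      _ = 2 ^ (s ^ k * (k + 4)) := by
          rw [← pow_add, ← pow_add, ← pow_add, ← pow_add]
          congr 1
          ring
  have hs1 : 0 < s := by omega
  have h4 : k + 4 ≤ s ^ (k + 4) := (Nat.le_succ _).trans ((succ_le_two_pow _).trans
    (Nat.pow_le_pow_left hs _))
  calc _ ≤ (2 ^ (s ^ k * (k + 4))) ^ N := Nat.pow_le_pow_left h3 N
    _ = 2 ^ (s ^ k * (k + 4) * N) := (pow_mul 2 _ N).symm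
    _ ≤ 2 ^ s ^ (k * k + 8 * k + 10) := by
        refine Nat.pow_le_pow_right (by norm_num) ?_
        calc s ^ k * (k + 4) * N ≤ s ^ k * s ^ (k + 4) * s ^ 6 :=
              Nat.mul_le_mul (Nat.mul_le_mul_left _ h4) hN
          _ = s ^ (2 * k + 10) := by
              rw [← pow_add, ← pow_add]
              congr 1
              ring
          _ ≤ s ^ (k * k + 8 * k + 10) := Nat.pow_le_pow_right hs1 (by nlinarith)

/-- The number of reals. -/
theorem card_bound {k s : ℕ} (hs : 2 ≤ s) :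
    s ^ k * (s ^ 6 * s ^ k + 1) ^ k + 1 ≤ s ^ (k * k + 8 * k + 10) := by
  have hs1 : 0 < s := by omega
  have key : ∀ e : ℕ, s ^ e + 1 ≤ s ^ (e + 1) := by
    intro e
    have : 1 ≤ s ^ e := Nat.one_le_pow _ _ hs1
    calc s ^ e + 1 ≤ s ^ e * 2 := by omega
      _ ≤ s ^ e * s := Nat.mul_le_mul_left _ hs
      _ = s ^ (e + 1) := by rw [pow_succ]
  calc s ^ k * (s ^ 6 * s ^ k + 1) ^ k + 1 ≤ s ^ k * (s ^ (6 + k + 1)) ^ k + 1 := by
        refine Nat.add_le_add_right (Nat.mul_le_mul_left _ (Nat.pow_le_pow_left ?_ k)) 1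
        rw [← pow_add]
        exact key _
    _ = s ^ (k * k + 8 * k) + 1 := by
        rw [← pow_mul, ← pow_add]
        congr 2
        ring
    _ ≤ s ^ (k * k + 8 * k + 1) := key _
    _ ≤ s ^ (k * k + 8 * k + 10) := Nat.pow_le_pow_right hs1 (by omega)

end TCL

open TCL

/-- **The class `PolyNum` has polynomial growth.** -/
theorem growth_of_polyNum {k m n : ℕ} (hm : 1 ≤ m) (hn : 1 ≤ n) (A : Matrix (Fin m) (Fin n) ℝ)
    (h : PolyNum k m n A) : Growth (k * k + 8 * k + 10) m n A := by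
  classical
  obtain ⟨s, hs⟩ : ∃ s, s = m + n := ⟨_, rfl⟩
  have hs2 : 2 ≤ s := by omega
  have hs1 : 0 < s := by omega
  unfold PolyNum at h
  unfold Growth
  rw [← hs] at h ⊢
  obtain ⟨R, C, ρ, γ, θ, w, c, P, hR, hC, hρ, hγ, hc, hw, hP, hA⟩ := h
  have hd : 1 ≤ s ^ k := Nat.one_le_pow _ _ hs1
  obtain ⟨W, hW⟩ := toFin (ι := Option (Fin (s ^ k) × (Fin k → Fin (s ^ 6 * s ^ k + 1))))
    (K := s ^ (k * k + 8 * k + 10)) (by
      simpa using card_bound (k := k) hs2)
    (fun i => Option.rec 1 (fun p => w p.1 * ∏ r, θ r ^ (p.2 r : ℕ)) i)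
  refine ⟨R, C, ρ, γ, W, hR.trans (by nlinarith), hC.trans (by nlinarith), hρ, hγ, ?_⟩
  intro l hl hl2
  suffices hh : ∃ y : Option (Fin (s ^ k) × (Fin k → Fin (s ^ 6 * s ^ k + 1))) → ℤ,
      (∀ i, |y i| ≤ 2 ^ s ^ (k * k + 8 * k + 10)) ∧
      (l.map fun p => ρ p.1 * A p.1 p.2 * γ p.2).prod =
        ∑ i, (y i : ℝ) * (fun i => Option.rec 1 (fun p => w p.1 * ∏ r, θ r ^ (p.2 r : ℕ)) i) i by
    obtain ⟨y, hy1, hy2⟩ := hh
    obtain ⟨y', hy1', hy2'⟩ := hW y (2 ^ s ^ (k * k + 8 * k + 10)) (by positivity) hy1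
    exact ⟨y', hy1', hy2.trans hy2'⟩
  cases l with
  | nil =>
    refine ⟨fun i => if i = none then 1 else 0, ?_, ?_⟩
    · intro i
      have h1 : (1 : ℤ) ≤ 2 ^ s ^ (k * k + 8 * k + 10) := one_le_pow₀ (by norm_num)
      dsimp only
      split_ifs
      · simpa using h1
      · simp
    · simp
  | cons p l =>
    have hx : ∀ q ∈ p :: l, WF θ w (s ^ k) ((s ^ k + 1) ^ k * 2 ^ s ^ k)
        (ρ q.1 * A q.1 q.2 * γ q.2) := by
      intro q hq
      obtain ⟨h1, h2⟩ := hl2 q hq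
      refine ⟨fun l => MvPolynomial.aeval θ (P q.1 q.2 l), ?_, hA _ h1 _ h2⟩
      intro l
      exact MF.ofPoly (hP _ _ l).1 (hP _ _ l).2
    have h1 := WF.prod hd hc hw _ (hx p List.mem_cons_self)
      (l.map fun p => ρ p.1 * A p.1 p.2 * γ p.2) (by
        intro x hx'
        obtain ⟨q, hq, rfl⟩ := List.mem_map.1 hx'
        exact hx q (List.mem_cons_of_mem _ hq))
    rw [List.length_map] at h1
    rw [List.length_cons] at hl
    obtain ⟨f, hf, hfx⟩ := h1
    have hf' := fun i => mf_comb ((hf i).mono le_rfl le_rfl (Nat.mul_le_mul_right (s ^ k) hl)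
      (size_bound (k := k) hs2 _ hl))
    choose y hy1 hy2 using hf'
    refine ⟨fun i => Option.rec 0 (fun p => y p.1 p.2) i, ?_, ?_⟩
    · intro i
      cases i with
      | none => simp
      | some p =>
        have h3 := hy1 p.1 p.2
        show |y p.1 p.2| ≤ _
        rw [Int.abs_eq_natAbs]
        exact_mod_cast h3
    · rw [List.map_cons, List.prod_cons, hfx, Fintype.sum_option]
      simp only [Int.cast_zero, zero_mul, zero_add]
      rw [Fintype.sum_prod_type]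
      refine Finset.sum_congr rfl fun i _ => ?_
      rw [hy2 i, Finset.mul_sum]
      exact Finset.sum_congr rfl fun e _ => by ring

namespace TCL

theorem small_lin {k S : ℕ} (hS : 1 ≤ S) (c : Fin k → ℤ) (hc : ∀ r, |c r| ≤ 2 ^ S) :
    (∀ r, (∑ r, MvPolynomial.C (c r) * MvPolynomial.X r : MvPolynomial (Fin k) ℤ).degreeOf r ≤ S) ∧
      ∀ e, |(∑ r, MvPolynomial.C (c r) * MvPolynomial.X r : MvPolynomial (Fin k) ℤ).coeff e| ≤
        2 ^ S := by
  classical
  constructor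
  · intro r
    refine (MvPolynomial.degreeOf_sum_le _ _ _).trans (Finset.sup_le fun i _ => ?_)
    refine (MvPolynomial.degreeOf_C_mul_le _ _ _).trans ?_
    rw [MvPolynomial.degreeOf_X]
    split_ifs <;> omega
  · intro e
    rw [MvPolynomial.coeff_sum]
    simp only [MvPolynomial.coeff_C_mul, MvPolynomial.coeff_X]
    by_cases h : ∃ r0 : Fin k, Finsupp.single r0 1 = e
    · obtain ⟨r0, rfl⟩ := h
      have : ∀ r : Fin k, (c r * if Finsupp.single r 1 = (Finsupp.single r0 1 : Fin k →₀ ℕ) then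
          (1 : ℤ) else 0) = if r = r0 then c r0 else 0 := by
        intro r
        by_cases h : r = r0
        · subst h
          simp
        · rw [if_neg h, if_neg, mul_zero]
          intro h2
          exact h (Finsupp.single_left_injective one_ne_zero h2)
      simp only [this, Finset.sum_ite_eq', Finset.mem_univ, if_true]
      exact hc r0
    · have : ∀ r : Fin k, (c r * if Finsupp.single r 1 = e then (1 : ℤ) else 0) = 0 := by
        intro r
        rw [if_neg (fun h2 => h ⟨r, h2⟩), mul_zero]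
      simp [this]

end TCL

open TCL

/-- The class contains the one of the starting result `CombinationsOfFewReals`. -/
theorem polyNum_of_comb {k m n : ℕ} (hm : 1 ≤ m) (A : Matrix (Fin m) (Fin n) ℝ)
    (h : Pool.Agent.W920.FD.Comb k m n A) : PolyNum k m n A := by
  classical
  obtain ⟨R, C, θ, M, hR, hC, hM, hA⟩ := h
  have hd : 1 ≤ (m + n) ^ k := Nat.one_le_pow _ _ (by omega)
  have hS : (1 : ℤ) ≤ 2 ^ (m + n) ^ k := one_le_pow₀ (by norm_num)
  obtain ⟨o, ho⟩ : ∃ o : Fin ((m + n) ^ k), o = ⟨0, hd⟩ := ⟨_, rfl⟩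
  refine ⟨R, C, fun _ => 1, fun _ => 1, θ, fun l => if l = o then 1 else 0,
    fun a b l => if a = o ∧ b = o ∧ l = o then 1 else 0,
    fun i j l => if l = o then ∑ r, MvPolynomial.C (M r i j) * MvPolynomial.X r else 0,
    hR, hC, fun _ => one_ne_zero, fun _ => one_ne_zero, ?_, ?_, ?_, ?_⟩
  · intro a b l
    dsimp only
    split_ifs
    · simpa using hS
    · simp
  · intro a b
    by_cases h1 : a = o <;> by_cases h2 : b = o <;> simp [h1, h2]
  · intro i j l
    dsimp only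
    split_ifs
    · exact small_lin hd _ fun r => hM r i j
    · refine ⟨fun r => by simp, fun e => by simp⟩
  · intro i hi j hj
    rw [hA i hi j hj]
    simp [mul_comm]

end Pool.Agent.TH71.GR
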