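import Pool.Agent.TH71.PG.Bl

set_option autoImplicit false

/-!
# Linear feasibility for matrices of polynomial growth: the algorithm

The class: after multiplication of the rows and the columns by nonzero reals, and outside at most
`k` rows and `k` columns, all products of at most `(m + n) ^ 6` entries are integer combinations of
`(m + n) ^ k` reals, with coefficients of at most `(m + n) ^ k` binary digits. All this is unknown
to the algorithm.

1. The signs of all entries. The following is done for every choice `c` of `k` rows and columns.
2. Potentials: the vertices `0, …, m - 1` are the rows, `m, …, m + n - 1` the columns. Every vertex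
   has a label, initially itself, and two lists of entries, the factor of the vertex being the
   quotient of their products; a vertex adopts the label of an adjacent vertex if this is smaller,
   the factor becoming such that (factor) (factor of the neighbour) (entry) = 1.
3. Levels: from a list of products of `j` atoms, the products with one more atom, and from these
   the pivots of the stages of simultaneous Diophantine approximation.
4. The final phase, with the products of the lists found with `2 k + 1` arbitrary atoms.
-/

namespace Pool.Agent.TH71.GR

open Pool.Agent.NPC Pool.Agent.H558R2 Pool.Agent.H622R3.SM Pool.Agent.W920.FC Pool.Agent.W920.FD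
open Pool.Agent.TH71.PG

/-! ### Potentials -/

/-- The register of the entry for the vertices `v` and `u`. -/
def er (m v u : ℕ) : Reg := [0, min v u, max v u - m]

/-- The vertices `v` and `u` are adjacent: one is a row, one a column, none is exceptional, and the
entry is not zero. -/
def adj (m n : ℕ) (c : Cand) (o : List Outcome) (v u : ℕ) : Bool :=
  decide (min v u < m) && (decide (m ≤ max v u) && (!(decide (min v u ∈ c.1)) &&
    (!(decide (max v u - m ∈ c.2)) &&
      !(decide (o.getD (min v u * n + (max v u - m)) none = none)))))

/-- For every vertex the label, the numerator and the denominator of the factor. -/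
abbrev PS : Type := List (ℕ × (List Reg × List Reg))

/-- The label. -/
def lab (x : PS) (v : ℕ) : ℕ := (x.getD v (0, ([], []))).1

/-- The numerator. -/
def nu (x : PS) (v : ℕ) : List Reg := (x.getD v (0, ([], []))).2.1

/-- The denominator. -/
def de (x : PS) (v : ℕ) : List Reg := (x.getD v (0, ([], []))).2.2

/-- The first neighbour with a smaller label. -/
def nb (m n : ℕ) (c : Cand) (o : List Outcome) (x : PS) (v : ℕ) : Option ℕ :=
  ((List.range (m + n)).filter fun u => adj m n c o v u && decide (lab x u < lab x v)).head?

/-- One step. -/
def lpS (m n : ℕ) (c : Cand) (o : List Outcome) (x : PS) : PS :=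
  (List.range (m + n)).map fun v =>
    ((nb m n c o x v).map fun u => (lab x u, (de x u, er m v u :: nu x u))).getD
      (x.getD v (0, ([], [])))

/-- The beginning. -/
def lp0 (m n : ℕ) : PS := (List.range (m + n)).map fun v => (v, ([], []))

/-- The number of steps. -/
def stp (s : ℕ) : ℕ := s * s + 1

/-! ### Atoms -/

/-- The product of all denominators. -/
def aP (s : ℕ) (x : PS) : List Reg := (List.range s).flatMap fun v => de x v

/-- The factor of the vertex `v` times the product of all denominators. -/
def aq (s : ℕ) (x : PS) (v : ℕ) : List Reg :=
  nu x v ++ ((List.range s).filter fun u => !(decide (u = v))).flatMap fun u => de x u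

/-- The atom for `1`: the square of the product of all denominators. -/
def a1 (s : ℕ) (x : PS) : List Reg := aP s x ++ aP s x

/-- The atom for an entry: this, times the factors of its row and its column, times `a1`. -/
def ae (m n : ℕ) (x : PS) (p : ℕ × ℕ) : List Reg :=
  [0, p.1, p.2] :: (aq (m + n) x p.1 ++ aq (m + n) x (m + p.2))

/-- The atom for a right-hand side. -/
def ab (m n : ℕ) (x : PS) (i : ℕ) : List Reg := [1, i] :: (aq (m + n) x i ++ aP (m + n) x)

/-- The atoms outside the exceptional rows and columns. -/
def at0 (m n : ℕ) (c : Cand) (x : PS) : List (List Reg) :=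
  a1 (m + n) x :: (((poss m n).filter fun p => !(decide (p.1 ∈ c.1)) &&
    !(decide (p.2 ∈ c.2))).map fun p => ae m n x p)

/-- All atoms. -/
def at1 (m n : ℕ) (x : PS) : List (List Reg) :=
  a1 (m + n) x :: (((poss m n).map fun p => ae m n x p) ++ (List.range m).map fun i => ab m n x i)

/-- The factors for the coordinates of the solutions. -/
def kl (m n : ℕ) (x : PS) : List (List Reg) :=
  aP (m + n) x :: (List.range (m + n)).map fun v => aq (m + n) x v

/-- All products of `κ` elements of `G`. -/
def catL (G : List (List Reg)) : ℕ → List (List Reg)
  | 0 => [[]]
  | κ + 1 => G.flatMap fun r => (catL G κ).map fun e => r ++ e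

/-! ### Levels -/

/-- The first `J` elements. -/
def tk (J : ℕ) (l : List (List Reg)) : List (List Reg) :=
  (List.range J).flatMap fun i => if i < l.length then [l.getD i []] else []

/-- The products of the elements of `B` with one more atom. -/
def nxL (A B : List (List Reg)) : List (List Reg) := B.flatMap fun e => A.map fun a => e ++ a

/-- The pivots. -/
def pivs (L : List (List Reg)) (s : S2) : List (List Reg) :=
  (List.range L.length).flatMap fun l =>
    if (s.2.1.getD l []).getD l 0 = 0 then [L.getD l []] else []

/-- A level. -/
def lev (T h J : ℕ) (o1 : List Reg) (A B : List (List Reg)) : TT (List (List Reg)) :=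
  bnd (stages (VL T (nxL A B)) (pE h (nxL A B).length) J) fun s =>
    ret ((B.headD [] ++ o1) :: tk J (pivs (nxL A B) s))

/-- The lists for the final phase. -/
def lfin (k m n : ℕ) (x : PS) (B : List (List Reg)) : List (List Reg) :=
  [] :: B.flatMap fun e => (catL (at1 m n x) (2 * k + 1)).flatMap fun f =>
    (kl m n x).map fun q => e ++ (f ++ q)

/-! ### The parameters (`s = m + n`) -/

/-- The norm of the relations in the levels, as a power of two. -/
def gh0 (k s : ℕ) : ℕ := s ^ k * s ^ k + (s ^ k + 1) * (s ^ k + 1)

/-- The length of the vectors in the levels, at most. -/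
def gN0 (k s : ℕ) : ℕ := (s ^ k + 1) * (1 + s * s)

/-- The size of the coefficients after the stages in a level, as a power of two. -/
def gB (k s : ℕ) : ℕ := ((gN0 k s + 1) * pE (gh0 k s) (gN0 k s) + 1) * s ^ k

/-- The norm of the minors, as a power of two. -/
def gh1 (k s : ℕ) : ℕ := s * s + s * (gN0 k s + gB k s)

/-- The length of the products, at most. -/
def gT (k s : ℕ) : ℕ := (s + 2 * k + 2) * (1 + 2 * ((s + 1) * stp s))

/-! ### The algorithm -/

/-- The choice number `i` of exceptional rows and columns. -/
def cd (k m n i : ℕ) : Cand := (cands k m n).getD i ([], [])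

/-- The entries. -/
def supQs (m n : ℕ) : List Qry := (poss m n).map fun p => ([], [0, p.1, p.2])

/-- One choice of exceptional rows and columns. -/
def TC (k m n : ℕ) (o : List Outcome) (st : ℕ × Bool) : TT (ℕ × Bool) :=
  bnd (iter (fun x => ret (lpS m n (cd k m n st.1) o x)) (stp (m + n)) (lp0 m n)) fun x =>
    bnd (iter (lev (gT k (m + n)) (gh0 k (m + n)) ((m + n) ^ k) (a1 (m + n) x)
      (at0 m n (cd k m n st.1) x)) m [[]]) fun B =>
        bnd (TL m n (gT k (m + n)) (gh1 k (m + n)) (lfin k m n x B)) fun ans =>
          ret (st.1 + 1, st.2 || ans)

/-- The computation. -/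
def TA (k m n : ℕ) : TT Bool :=
  bnd (batch (supQs m n)) fun o =>
    bnd (iter (TC k m n o) (cands k m n).length (0, false)) fun st => ret st.2

end Pool.Agent.TH71.GR
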