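import Pool.Agent.TH71.GR.Stm

set_option autoImplicit false

/-!
# All levels
-/

namespace Pool.Agent.TH71.GR

open Pool.Agent.NPC Pool.Agent.H558R2 Pool.Agent.H622R3.SM Pool.Agent.W920.FC Pool.Agent.W920.FD
open Pool.Agent.TH71.PG

namespace TLV

theorem bind {P Q : Set ℝ} {Y X : ℕ} {v c : ℝ} (h : SF P Y v) (hf : ∀ p ∈ P, SF Q X (c * p)) :
    SF Q (Y * X) (c * v) := by
  induction h with
  | zero => simpa using SF.zero (P := Q)
  | @add Y v p _ hp ih =>
    have := ih.plus (hf p hp)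
    rw [← mul_add] at this
    rwa [add_mul, one_mul]
  | @sub Y v p _ hp ih =>
    have := ih.plus (hf p hp).neg
    rw [← sub_eq_add_neg, ← mul_sub] at this
    rwa [add_mul, one_mul]
  | pad _ ih => exact ih.mono (Nat.mul_le_mul_right _ (Nat.le_succ _))

theorem vl_append (g : Reg → ℝ) (e f : List Reg) : vl g (e ++ f) = vl g e * vl g f := by
  simp [vl]

theorem vl_nil (g : Reg → ℝ) : vl g [] = 1 := rfl

/-- the parameters are polynomial -/
theorem bounds (k : ℕ) : ∃ q : Polynomial ℕ, ∀ m n : ℕ, gT k (m + n) ≤ q.eval (m + n) ∧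
    gh0 k (m + n) ≤ q.eval (m + n) ∧ gN0 k (m + n) ≤ q.eval (m + n) ∧
    pE (gh0 k (m + n)) (gN0 k (m + n)) ≤ q.eval (m + n) ∧ (m + n) ^ k ≤ q.eval (m + n) ∧
    gh1 k (m + n) ≤ q.eval (m + n) := by
  have hs := TPB.pb_s
  have hJ := TPB.pb_pow hs k
  have c1 := TPB.pb_const 1
  have hh0 : TPB.PB fun m n => gh0 k (m + n) :=
    TPB.pb_add (TPB.pb_mul hJ hJ) (TPB.pb_mul (TPB.pb_add hJ c1) (TPB.pb_add hJ c1))
  have hN0 : TPB.PB fun m n => gN0 k (m + n) :=
    TPB.pb_mul (TPB.pb_add hJ c1) (TPB.pb_add c1 (TPB.pb_mul hs hs))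
  have hE : TPB.PB fun m n => pE (gh0 k (m + n)) (gN0 k (m + n)) :=
    TPB.pb_add (TPB.pb_add hh0 (TPB.pb_mul (TPB.pb_const 2) hN0)) (TPB.pb_const 4)
  have hB : TPB.PB fun m n => gB k (m + n) :=
    TPB.pb_mul (TPB.pb_add (TPB.pb_mul (TPB.pb_add hN0 c1) hE) c1) hJ
  have hh1 : TPB.PB fun m n => gh1 k (m + n) :=
    TPB.pb_add (TPB.pb_mul hs hs) (TPB.pb_mul hs (TPB.pb_add hN0 hB))
  have hT : TPB.PB fun m n => gT k (m + n) :=
    TPB.pb_mul (TPB.pb_add (TPB.pb_add hs (TPB.pb_const (2 * k))) (TPB.pb_const 2))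
      (TPB.pb_add c1 (TPB.pb_mul (TPB.pb_const 2) (TPB.pb_mul (TPB.pb_add hs c1)
        (TPB.pb_add (TPB.pb_mul hs hs) c1))))
  obtain ⟨q, hq⟩ := TPB.pb_add hT (TPB.pb_add hh0 (TPB.pb_add hN0 (TPB.pb_add hE
    (TPB.pb_add hJ hh1))))
  refine ⟨q, fun m n => ?_⟩
  have h := hq m n
  simp only at h
  refine ⟨?_, ?_, ?_, ?_, ?_, ?_⟩ <;> omega

theorem pE_mono {h N N' : ℕ} (hN : N ≤ N') : pE h N ≤ pE h N' := by
  unfold pE
  omega

theorem mem_nxL (A B : List (List Reg)) (e : List Reg) :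
    e ∈ nxL A B ↔ ∃ e0 ∈ B, ∃ a ∈ A, e0 ++ a = e := by
  unfold nxL
  simp only [List.mem_flatMap, List.mem_map]

theorem len_nxL (A B : List (List Reg)) : (nxL A B).length = B.length * A.length := by
  unfold nxL
  rw [List.length_flatMap]
  simp

theorem len_tk (J : ℕ) (l : List (List Reg)) : (tk J l).length ≤ J := by
  unfold tk
  have := TV1LEN.len_fr J (fun i => if i < l.length then [l.getD i []] else []) 1 (by
    intro a
    split_ifs <;> simp)
  simpa using this

theorem mem_tk {J : ℕ} {l : List (List Reg)} {e : List Reg} (h : e ∈ tk J l) : e ∈ l := by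
  unfold tk at h
  rw [List.mem_flatMap] at h
  obtain ⟨i, -, h⟩ := h
  split_ifs at h with h1
  · rw [List.mem_singleton] at h
    rw [h, List.getD_eq_getElem _ _ h1]
    exact List.getElem_mem h1
  · simp at h

theorem tk_of_len {J : ℕ} {l : List (List Reg)} (hl : l.length ≤ J) {e : List Reg} (h : e ∈ l) :
    e ∈ tk J l := by
  obtain ⟨i, hi, rfl⟩ := List.getElem_of_mem h
  unfold tk
  rw [List.mem_flatMap]
  refine ⟨i, List.mem_range.2 (by omega), ?_⟩
  rw [if_pos hi, List.mem_singleton, List.getD_eq_getElem _ _ hi]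

theorem mem_pivs {L : List (List Reg)} {s : S2} {e : List Reg} :
    e ∈ pivs L s ↔ ∃ l < L.length, (s.2.1.getD l []).getD l 0 = 0 ∧ L.getD l [] = e := by
  unfold pivs
  rw [List.mem_flatMap]
  constructor
  · rintro ⟨l, hl, h⟩
    rw [List.mem_range] at hl
    split_ifs at h with h1
    · rw [List.mem_singleton] at h
      exact ⟨l, hl, h1, h.symm⟩
    · simp at h
  · rintro ⟨l, hl, h1, rfl⟩
    refine ⟨l, List.mem_range.2 hl, ?_⟩
    rw [if_pos h1]
    simp

theorem len_pivs (L : List (List Reg)) (s : S2) : (pivs L s).length =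
    ((List.range L.length).filter fun l => decide ((s.2.1.getD l []).getD l 0 = 0)).length := by
  unfold pivs
  generalize List.range L.length = R
  induction R with
  | nil => rfl
  | cons a R ih =>
    rw [List.flatMap_cons, List.length_append, ih, List.filter_cons]
    by_cases h : (s.2.1.getD a []).getD a 0 = 0
    · rw [if_pos h, if_pos (by simpa using h)]
      simp
      omega
    · rw [if_neg h, if_neg (by simpa using h)]
      simp

theorem ent_base {m n : ℕ} {c : Cand} {r : Reg} (h : Ent m n c r) : r ∈ baseReg := by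
  obtain ⟨i, -, j, -, rfl, -⟩ := h
  simp [baseReg]

theorem len_poss (m n : ℕ) : (poss m n).length = m * n := by
  unfold poss
  rw [List.length_flatMap]
  simp

theorem len_at0 (m n : ℕ) (c : Cand) (x : PS) : (at0 m n c x).length ≤ 1 + m * n := by
  unfold at0
  rw [List.length_cons, List.length_map]
  have h := List.length_filter_le
    (fun p : ℕ × ℕ => !(decide (p.1 ∈ c.1)) && !(decide (p.2 ∈ c.2))) (poss m n)
  rw [len_poss] at h
  omega

/-- the bound of the degrees -/
theorem deg_bound {m n : ℕ} (hm : 1 ≤ m) (hn : 1 ≤ n) :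
    m * (1 + 2 * ((m + n + 1) * stp (m + n))) ≤ (m + n) ^ 6 := by
  have hs : 2 ≤ m + n := by omega
  have h1 : m * (1 + 2 * ((m + n + 1) * stp (m + n))) ≤
      (m + n) * (1 + 2 * ((m + n + 1) * stp (m + n))) := Nat.mul_le_mul_right _ (by omega)
  refine h1.trans ?_
  generalize m + n = s at hs
  unfold stp
  obtain ⟨t, rfl⟩ := Nat.exists_eq_add_of_le hs
  have : (2 + t) ^ 6 = (2 + t) * (2 + t) ^ 5 := by ring
  rw [this]
  refine Nat.mul_le_mul_left _ ?_
  nlinarith [Nat.zero_le t, Nat.zero_le (t ^ 2), Nat.zero_le (t ^ 3), Nat.zero_le (t ^ 4),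
    Nat.zero_le (t ^ 5)]

end TLV

open TLV

/-- One level. -/
theorem oneLev (k : ℕ) (hP : S_PSTGS) (hAt : S_ATOM) : ∃ q : Polynomial ℕ, ∀ (m n : ℕ) (c : Cand)
    (g : Reg → ℝ) (o : List Outcome), Base g → OK0 m n g o → ∀ B : List (List Reg), B ≠ [] →
    LOK B → B.length ≤ (m + n) ^ k + 1 → ∃ s : S2,
    Inv2 (nxL (at0 m n c (pot m n c o (stp (m + n)))) B).length
      (pE (gh0 k (m + n)) (nxL (at0 m n c (pot m n c o (stp (m + n)))) B).length) (gh0 k (m + n))
      (wl g (gT k (m + n)) (nxL (at0 m n c (pot m n c o (stp (m + n)))) B)) ((m + n) ^ k) s ∧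
    PivInv (nxL (at0 m n c (pot m n c o (stp (m + n)))) B).length s ∧
    Runs g (Gd q (m + n) g) (lev (gT k (m + n)) (gh0 k (m + n)) ((m + n) ^ k)
      (a1 (m + n) (pot m n c o (stp (m + n)))) (at0 m n c (pot m n c o (stp (m + n)))) B)
      ((B.headD [] ++ a1 (m + n) (pot m n c o (stp (m + n)))) ::
        tk ((m + n) ^ k) (pivs (nxL (at0 m n c (pot m n c o (stp (m + n)))) B) s))
      (q.eval (m + n)) := by
  obtain ⟨qb, hb⟩ := bounds k
  obtain ⟨qv, hv⟩ := t_VL qb
  obtain ⟨q, hq⟩ := hP qv qb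
  refine ⟨q, ?_⟩
  intro m n c g o hg ho B hB1 hB2 hB3
  obtain ⟨b1, b2, b3, b4, b5, -⟩ := hb m n
  obtain ⟨-, -, hA, -⟩ := hAt m n c g o ho
  set x := pot m n c o (stp (m + n)) with hx
  set L := nxL (at0 m n c x) B with hL
  have hlen : L.length ≤ gN0 k (m + n) := by
    rw [hL, len_nxL]
    unfold gN0
    refine Nat.mul_le_mul hB3 ((len_at0 m n c x).trans ?_)
    have : m * n ≤ (m + n) * (m + n) := Nat.mul_le_mul (by omega) (by omega)
    omega
  have hlen1 : 1 ≤ L.length := by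
    rw [hL, len_nxL]
    have h1 : 1 ≤ B.length := List.length_pos_iff.2 hB1
    have h2 : 1 ≤ (at0 m n c x).length := by simp [at0]
    exact Nat.mul_pos h1 h2
  have hLok : LOK L := by
    intro e he r hr
    rw [hL, mem_nxL] at he
    obtain ⟨e0, he0, a, ha, rfl⟩ := he
    rcases List.mem_append.1 hr with h | h
    · exact hB2 e0 he0 r h
    · exact ent_base ((hA a ha).1 r h)
  have hvok := hv (m + n) g (gT k (m + n)) L hg b1 (hlen.trans b3) hlen1 hLok
  have hV := VL_len (gT k (m + n)) L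
  obtain ⟨s, i1, i2, i3⟩ := hq (m + n) g (VL (gT k (m + n)) L) (wl g (gT k (m + n)) L)
    (pE (gh0 k (m + n)) L.length) (gh0 k (m + n)) ((m + n) ^ k) hg hvok
    (by rw [hV]; exact le_rfl) ((pE_mono hlen).trans b4) b5
  rw [hV] at i1 i2
  refine ⟨s, i1, i2, ?_⟩
  have r1 := lBND _ _ g (Gd q (m + n) g) _ (fun s => ret ((B.headD [] ++ a1 (m + n) x) ::
    tk ((m + n) ^ k) (pivs L s))) s _ _ 0 i3 (TTRY.runs_ret _ _ _)
  exact r1

/-- The invariant of the levels. -/
def Lv (k m n : ℕ) (c : Cand) (g : Reg → ℝ) (x : PS) (j : ℕ) (B : List (List Reg)) : Prop :=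
  B ≠ [] ∧ LOK B ∧ B.length ≤ (m + n) ^ k + 1 ∧
  (∀ e ∈ B, e.length ≤ j * (1 + 2 * ((m + n + 1) * stp (m + n)))) ∧
  (∀ e ∈ B, ∃ l : List (List Reg), l.length = j ∧ (∀ a ∈ l, a ∈ at0 m n c x) ∧ e = l.flatten) ∧
  (GrowthR k m n c g → ∃ C : ℝ, C ≠ 0 ∧ ∀ p ∈ pw g (at0 m n c x) j,
    SF (vs g B) ((gN0 k (m + n) * 2 ^ gB k (m + n)) ^ j) (C * p))

theorem lv0 (k m n : ℕ) (c : Cand) (g : Reg → ℝ) (x : PS) : Lv k m n c g x 0 [[]] := by
  refine ⟨by simp, ?_, by simp, by simp, ?_, ?_⟩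
  · intro e he r hr
    simp at he
    subst he
    simp at hr
  · intro e he
    exact ⟨[], rfl, by simp, by simpa using he⟩
  · intro _
    refine ⟨1, one_ne_zero, ?_⟩
    rintro p ⟨l, hl, -, rfl⟩
    rw [List.length_eq_zero_iff.1 hl, pow_zero]
    simp only [List.map_nil, List.prod_nil, mul_one]
    exact SF.of_mem ⟨[], by simp, rfl⟩

/-- Products of atoms, with scaled values. -/
theorem flat_scale (g gM : Reg → ℝ) (A : List (List Reg)) (o1 : List Reg)
    (hA : ∀ a ∈ A, vl g a * vl gM o1 = vl gM a * vl g o1) : ∀ l : List (List Reg),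
    (∀ a ∈ l, a ∈ A) → vl g l.flatten * vl gM o1 ^ l.length = vl gM l.flatten * vl g o1 ^ l.length
  | [], _ => by simp [vl]
  | a :: l, h => by
    have ih := flat_scale g gM A o1 hA l fun b hb => h b (by simp [hb])
    have ha := hA a (h a (by simp))
    rw [List.flatten_cons, vl_append, vl_append, List.length_cons, pow_succ, pow_succ]
    calc vl g a * vl g l.flatten * (vl gM o1 ^ l.length * vl gM o1) =
        (vl g a * vl gM o1) * (vl g l.flatten * vl gM o1 ^ l.length) := by ring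
      _ = (vl gM a * vl g o1) * (vl gM l.flatten * vl g o1 ^ l.length) := by rw [ha, ih]
      _ = _ := by ring

theorem lv_step (k : ℕ) (hL : S_LSEM) (hAt : S_ATOM) (m n : ℕ) (hm : 1 ≤ m) (hn : 1 ≤ n) (c : Cand)
    (g : Reg → ℝ) (o : List Outcome) (hg : Base g) (ho : OK0 m n g o) (j : ℕ) (hj : j < m)
    (B : List (List Reg)) (s : S2) (hB : Lv k m n c g (pot m n c o (stp (m + n))) j B)
    (hinv : Inv2 (nxL (at0 m n c (pot m n c o (stp (m + n)))) B).length
      (pE (gh0 k (m + n)) (nxL (at0 m n c (pot m n c o (stp (m + n)))) B).length) (gh0 k (m + n))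
      (wl g (gT k (m + n)) (nxL (at0 m n c (pot m n c o (stp (m + n)))) B)) ((m + n) ^ k) s)
    (hpiv : PivInv (nxL (at0 m n c (pot m n c o (stp (m + n)))) B).length s) :
    Lv k m n c g (pot m n c o (stp (m + n))) (j + 1)
      ((B.headD [] ++ a1 (m + n) (pot m n c o (stp (m + n)))) ::
        tk ((m + n) ^ k) (pivs (nxL (at0 m n c (pot m n c o (stp (m + n)))) B) s)) := by
  obtain ⟨c1, c2, c3, c4, c5, c6⟩ := hB
  obtain ⟨-, -, hA, hsc⟩ := hAt m n c g o ho
  set x := pot m n c o (stp (m + n)) with hx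
  set A := at0 m n c x with hAdef
  set L := nxL A B with hLdef
  set o1 := a1 (m + n) x with ho1
  set aM := 1 + 2 * ((m + n + 1) * stp (m + n)) with haM
  have ho1A : o1 ∈ A := by
    rw [hAdef]
    unfold at0
    exact List.mem_cons_self
  have hhead : B.headD [] ∈ B := by
    cases B with
    | nil => exact absurd rfl c1
    | cons b B => simp
  -- the new elements
  have hmem : ∀ e ∈ (B.headD [] ++ o1) :: tk ((m + n) ^ k) (pivs L s), ∃ e0 ∈ B, ∃ a ∈ A,
      e0 ++ a = e := by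
    intro e he
    rcases List.mem_cons.1 he with rfl | he
    · exact ⟨_, hhead, o1, ho1A, rfl⟩
    · have h1 := mem_tk he
      rw [mem_pivs] at h1
      obtain ⟨l, hl, -, h2⟩ := h1
      rw [← mem_nxL, ← h2, List.getD_eq_getElem _ _ hl]
      exact List.getElem_mem hl
  have hLlen : ∀ e ∈ L, e.length ≤ (j + 1) * aM := by
    intro e he
    rw [hLdef, mem_nxL] at he
    obtain ⟨e0, he0, a, ha, rfl⟩ := he
    rw [List.length_append, add_mul, one_mul]
    exact Nat.add_le_add (c4 e0 he0) (hA a ha).2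
  have hLfl : ∀ e ∈ L, ∃ l : List (List Reg), l.length = j + 1 ∧ (∀ a ∈ l, a ∈ A) ∧
      e = l.flatten := by
    intro e he
    rw [hLdef, mem_nxL] at he
    obtain ⟨e0, he0, a, ha, rfl⟩ := he
    obtain ⟨l, h1, h2, rfl⟩ := c5 e0 he0
    refine ⟨l ++ [a], by simp [h1], ?_, by simp⟩
    intro b hb
    rcases List.mem_append.1 hb with hb | hb
    · exact h2 b hb
    · rw [List.mem_singleton] at hb
      rw [hb]
      exact ha
  refine ⟨by simp, ?_, ?_, ?_, ?_, ?_⟩
  · intro e he r hr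
    obtain ⟨e0, he0, a, ha, rfl⟩ := hmem e he
    rcases List.mem_append.1 hr with h | h
    · exact c2 e0 he0 r h
    · exact ent_base ((hA a ha).1 r h)
  · rw [List.length_cons]
    exact Nat.succ_le_succ (len_tk _ _)
  · intro e he
    obtain ⟨e0, he0, a, ha, h⟩ := hmem e he
    exact hLlen e ((mem_nxL _ _ _).2 ⟨e0, he0, a, ha, h⟩)
  · intro e he
    obtain ⟨e0, he0, a, ha, h⟩ := hmem e he
    exact hLfl e ((mem_nxL _ _ _).2 ⟨e0, he0, a, ha, h⟩)
  · intro hGr
    obtain ⟨C, hC, hp⟩ := c6 hGr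
    obtain ⟨σ, gM, θ, hσ, hθ⟩ := hGr
    obtain ⟨hM0, hMa⟩ := hsc σ gM hσ
    have hjT : (j + 1) * aM ≤ gT k (m + n) := by
      unfold gT
      exact Nat.mul_le_mul_right _ (by omega)
    have hw : ∀ l, wl g (gT k (m + n)) L l = vl g (L.getD l []) := by
      intro l
      unfold wl
      refine pv_eq hg.1 _ _ ?_
      by_cases hl : l < L.length
      · rw [List.getD_eq_getElem _ _ hl]
        exact (hLlen _ (List.getElem_mem hl)).trans hjT
      · rw [List.getD_eq_default _ _ (by omega)]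
        exact Nat.zero_le _
    set lam : ℝ := (vl g o1 / vl gM o1) ^ (j + 1) with hlam
    have hval : ∀ e ∈ L, vl g e = lam * vl gM e := by
      intro e he
      obtain ⟨l, h1, h2, rfl⟩ := hLfl e he
      have h3 := flat_scale g gM A o1 hMa l h2
      rw [h1] at h3
      rw [hlam, div_pow]
      have h4 : vl gM o1 ^ (j + 1) ≠ 0 := pow_ne_zero _ hM0
      field_simp
      linarith
    have hcoef : ∀ l, ∃ y : ℕ → ℤ, l < L.length →
        (∀ r < (m + n) ^ k, (y r).natAbs ≤ 2 ^ ((m + n) ^ k)) ∧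
        vl gM (L.getD l []) = ∑ r ∈ Finset.range ((m + n) ^ k), (y r : ℝ) * θ r := by
      intro l
      by_cases hl : l < L.length
      · have hmem' : L.getD l [] ∈ L := by
          rw [List.getD_eq_getElem _ _ hl]
          exact List.getElem_mem hl
        obtain ⟨y, h1, h2⟩ := hθ (L.getD l []) ((hLlen _ hmem').trans
          ((Nat.mul_le_mul_right _ (by omega)).trans (deg_bound hm hn))) (by
            intro r hr
            obtain ⟨l', -, h2, h3⟩ := hLfl _ hmem'
            rw [h3, List.mem_flatten] at hr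
            obtain ⟨a, ha, hr⟩ := hr
            exact (hA a (h2 a ha)).1 r hr)
        exact ⟨y, fun _ => ⟨h1, h2⟩⟩
      · exact ⟨fun _ => 0, fun h => absurd h hl⟩
    choose y hy using hcoef
    have hres := t_RANK ((m + n) ^ k) ((m + n) ^ k) L.length
      (pE (gh0 k (m + n)) L.length) (gh0 k (m + n)) (wl g (gT k (m + n)) L) s
      (fun r => lam * θ r) (fun r l => y l r) hinv
      (fun r hr l hl => (hy l hl).1 r hr)
      (by
        intro l hl
        rw [hw l, hval _ (by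
          rw [List.getD_eq_getElem _ _ hl]
          exact List.getElem_mem hl), (hy l hl).2, Finset.mul_sum]
        exact Finset.sum_congr rfl fun r _ => by ring)
      (by unfold gh0; exact le_rfl)
    obtain ⟨hsf, hcnt⟩ := hL _ _ _ _ _ s hinv hpiv hres
    have hD : 1 ≤ s.2.2 := hinv.2.1
    have hNle : L.length ≤ gN0 k (m + n) := by
      rw [hLdef, len_nxL]
      unfold gN0
      refine Nat.mul_le_mul c3 ((len_at0 m n c x).trans ?_)
      have : m * n ≤ (m + n) * (m + n) := Nat.mul_le_mul (by omega) (by omega)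
      omega
    have hX : L.length * 2 ^ (((L.length + 1) * pE (gh0 k (m + n)) L.length + 1) * (m + n) ^ k) ≤
        gN0 k (m + n) * 2 ^ gB k (m + n) := by
      refine Nat.mul_le_mul hNle (Nat.pow_le_pow_right (by norm_num) ?_)
      unfold gB
      exact Nat.mul_le_mul_right _ (Nat.succ_le_succ (Nat.mul_le_mul (Nat.succ_le_succ hNle)
        (pE_mono hNle)))
    have hsub : {p | ∃ i < L.length, (s.2.1.getD i []).getD i 0 = 0 ∧
        wl g (gT k (m + n)) L i = p} ⊆
        vs g ((B.headD [] ++ o1) :: tk ((m + n) ^ k) (pivs L s)) := by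
      rintro p ⟨i, hi, h1, rfl⟩
      refine ⟨L.getD i [], ?_, (hw i).symm⟩
      refine List.mem_cons_of_mem _ (tk_of_len ?_ (mem_pivs.2 ⟨i, hi, h1, rfl⟩))
      rw [len_pivs]
      exact hcnt
    refine ⟨(s.2.2 : ℝ) * C, mul_ne_zero (by exact_mod_cast (by omega : s.2.2 ≠ 0)) hC, ?_⟩
    rintro p ⟨l, hl, hlA, rfl⟩
    cases l with
    | nil => simp at hl
    | cons a l =>
      have hl' : l.length = j := by simpa using hl
      have haA := hlA a (by simp)
      have h1 := hp (l.map fun a => vl g a).prod ⟨l, hl', fun b hb => hlA b (by simp [hb]), rfl⟩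
      have h2 := bind (Q := vs g ((B.headD [] ++ o1) :: tk ((m + n) ^ k) (pivs L s)))
        (X := gN0 k (m + n) * 2 ^ gB k (m + n)) (c := (s.2.2 : ℝ) * vl g a) h1 (by
          rintro q ⟨e, he, rfl⟩
          have h3 : e ++ a ∈ L := (mem_nxL _ _ _).2 ⟨e, he, a, haA, rfl⟩
          obtain ⟨i, hi, h4⟩ := List.getElem_of_mem h3
          have h5 := hsf i hi
          rw [hw i, List.getD_eq_getElem _ _ hi, h4, vl_append] at h5
          have h6 := (h5.subset hsub).mono hX
          convert h6 using 1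
          ring)
      rw [← pow_succ] at h2
      convert h2 using 1
      simp only [List.map_cons, List.prod_cons]
      ring

theorem t_LEVS (k : ℕ) (hP : S_PSTGS) (hL : S_LSEM) (hAt : S_ATOM) : S_LEVS k := by
  classical
  obtain ⟨q1, h1⟩ := oneLev k hP hAt
  refine ⟨q1 + Polynomial.X * q1, ?_⟩
  intro m n c g o hm hn hg ho
  set x := pot m n c o (stp (m + n)) with hx
  choose! st hst1 hst2 hst3 using fun (B : List (List Reg)) (b1 : B ≠ []) (b2 : LOK B)
    (b3 : B.length ≤ (m + n) ^ k + 1) => h1 m n c g o hg ho B b1 b2 b3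
  obtain ⟨B, hB0, hB⟩ : ∃ B : ℕ → List (List Reg), B 0 = [[]] ∧ ∀ j, B (j + 1) =
      (((B j).headD [] ++ a1 (m + n) x) ::
        tk ((m + n) ^ k) (pivs (nxL (at0 m n c x) (B j)) (st (B j)))) :=
    ⟨fun j => Nat.rec [[]] (fun _ b => ((b.headD [] ++ a1 (m + n) x) ::
        tk ((m + n) ^ k) (pivs (nxL (at0 m n c x) b) (st b)))) j, rfl, fun _ => rfl⟩
  have hI : ∀ j, j ≤ m → Lv k m n c g x j (B j) := by
    intro j
    induction j with
    | zero =>
      intro _
      rw [hB0]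
      exact lv0 k m n c g x
    | succ j ih =>
      intro hj
      have hv := ih (by omega)
      rw [hB j]
      exact lv_step k hL hAt m n hm hn c g o hg ho j (by omega) (B j) (st (B j)) hv
        (hst1 (B j) hv.1 hv.2.1 hv.2.2.1) (hst2 (B j) hv.1 hv.2.1 hv.2.2.1)
  have hR := lITER _ g (Gd q1 (m + n) g) (lev (gT k (m + n)) (gh0 k (m + n)) ((m + n) ^ k)
      (a1 (m + n) x) (at0 m n c x)) B m (q1.eval (m + n)) (fun j hj => by
        have hv := hI j hj.le
        rw [hB j]
        exact hst3 (B j) hv.1 hv.2.1 hv.2.2.1)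
  rw [hB0] at hR
  obtain ⟨f1, f2, f3, f4, -, f6⟩ := hI m le_rfl
  refine ⟨B m, ?_, f2, f1, f3, f4, ?_⟩
  · refine lMONO _ g _ _ _ _ _ _ (fun v hv => TFINAL.gd_mono (fun y => ?_) v hv) ?_ hR
    · rw [Polynomial.eval_add]
      exact Nat.le_add_right _ _
    · rw [Polynomial.eval_add, Polynomial.eval_mul, Polynomial.eval_X]
      have : m * q1.eval (m + n) ≤ (m + n) * q1.eval (m + n) := Nat.mul_le_mul_right _ (by omega)
      omega
  · intro hGr
    obtain ⟨C, hC, hp⟩ := f6 hGr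
    refine ⟨C, hC, fun p hpm => (hp p hpm).mono ?_⟩
    have h2 : gN0 k (m + n) * 2 ^ gB k (m + n) ≤ 2 ^ (gN0 k (m + n) + gB k (m + n)) := by
      rw [pow_add]
      exact Nat.mul_le_mul_right _ Nat.lt_two_pow_self.le
    calc (gN0 k (m + n) * 2 ^ gB k (m + n)) ^ m ≤
        (2 ^ (gN0 k (m + n) + gB k (m + n))) ^ m := Nat.pow_le_pow_left h2 m
      _ = 2 ^ ((gN0 k (m + n) + gB k (m + n)) * m) := by rw [← pow_mul]
      _ ≤ _ := by
        refine Nat.pow_le_pow_right (by norm_num) ?_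
        rw [mul_comm]
        exact Nat.mul_le_mul_right _ (by omega)

end Pool.Agent.TH71.GR
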