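import Pool.Agent.TH71.GR.Fin
import Pool.Agent.TH822.GR.PSTGS
import Pool.Agent.TH558.GR.LSEM
import Pool.Agent.TH558.GR.POT
import Pool.Agent.TH75.GR.ATOM
import Pool.Agent.TH75.GR.MINR
import Pool.Agent.TH159.GR.PTLEV
import Pool.Agent.TH515.GR.PTPOT
import Pool.Agent.TH494.GR.CTL

set_option autoImplicit false

namespace Pool.Agent.TH71.GR

open Pool.Agent.NPC Pool.Agent.H558R2 Pool.Agent.H622R3.SM Pool.Agent.W920.FC Pool.Agent.W920.FD
open Pool.Agent.TH71.PG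

theorem main (k : ℕ) : PolyControl (algOf (TA k)) ∧ OracleFree (algOf (TA k)) ∧
    StronglyPolynomialOn (fun m n A _ => Growth k m n A) (algOf (TA k)) :=
  have hAt : S_ATOM := TH75.GR.t_ATOM TH558.GR.t_POT1 TH558.GR.t_POT2 TH558.GR.t_POT3
  t_FIN k (t_LEVS k TH822.GR.t_PSTGS TH558.GR.t_LSEM hAt) hAt TH558.GR.t_POT1 TH75.GR.t_MINR
    (TH494.GR.t_CTL k TH159.GR.t_PTLEV TH515.GR.t_PTPOT (TH515.GR.t_PLIST k))

end Pool.Agent.TH71.GR
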