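import Pool.Agent.TH71.GR.Defs
import Pool.Agent.TH71.PG.Run

set_option autoImplicit false

/-!
# Linear feasibility for matrices of polynomial growth: statements of the parts
-/

namespace Pool.Agent.TH71.GR

open Pool.Agent.NPC Pool.Agent.H558R2 Pool.Agent.H622R3.SM Pool.Agent.W920.FC Pool.Agent.W920.FD
open Pool.Agent.TH71.PG

/-! ### Values -/

/-- The value of a product. -/
noncomputable def vl (g : Reg → ℝ) (e : List Reg) : ℝ := (e.map g).prod

/-- The values of the products in `B`. -/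
def vs (g : Reg → ℝ) (B : List (List Reg)) : Set ℝ := {p | ∃ e ∈ B, vl g e = p}

/-- The products of `j` values of elements of `A`. -/
def pw (g : Reg → ℝ) (A : List (List Reg)) (j : ℕ) : Set ℝ :=
  {p | ∃ l : List (List Reg), l.length = j ∧ (∀ a ∈ l, a ∈ A) ∧ (l.map fun a => vl g a).prod = p}

/-! ### Stages -/

/-- The forms are triangular: outside the set `S` of pivots, the form number `l` has the coefficient
`s.2.2` at `l` and otherwise only coefficients at pivots; the forms of pivots are zero. -/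
def PivInv (N : ℕ) (s : S2) : Prop := ∃ S : Finset ℕ, S.card ≤ s.1.length ∧ (∀ l ∈ S, l < N) ∧
  ∀ l < N, (l ∈ S → ∀ i < N, (s.2.1.getD l []).getD i 0 = 0) ∧
    (l ∉ S → (s.2.1.getD l []).getD l 0 = (s.2.2 : ℤ) ∧
      ∀ i < N, i ≠ l → i ∉ S → (s.2.1.getD l []).getD i 0 = 0)

/-- All stages, with pivots (compare `S_STGS`). -/
def S_PSTGS : Prop := ∀ qV pE : Polynomial ℕ, ∃ q : Polynomial ℕ, ∀ (S : ℕ) (g : Reg → ℝ) (V : VS)
  (w : ℕ → ℝ) (E h J : ℕ), Base g → VOK qV S g V w → h + 2 * V.2.length + 4 ≤ E →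
  E ≤ pE.eval S → J ≤ pE.eval S →
  ∃ s : S2, Inv2 V.2.length E h w J s ∧ PivInv V.2.length s ∧
    Runs g (Gd q S g) (stages V E J) s (q.eval S)

/-- If the residue vanishes, then all coordinates are rational combinations of the pivots. -/
def S_LSEM : Prop := ∀ (N E h J : ℕ) (w : ℕ → ℝ) (s : S2), Inv2 N E h w J s → PivInv N s →
  (∀ l < N, evF N w (s.2.1.getD l []) = 0) →
  (∀ l < N, SF {p | ∃ i < N, (s.2.1.getD i []).getD i 0 = 0 ∧ w i = p}
    (N * 2 ^ (((N + 1) * E + 1) * J)) ((s.2.2 : ℝ) * w l)) ∧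
  ((List.range N).filter fun l => decide ((s.2.1.getD l []).getD l 0 = 0)).length ≤ J

/-! ### Potentials -/

/-- The outcomes for the entries. -/
def OK0 (m n : ℕ) (g : Reg → ℝ) (o : List Outcome) : Prop :=
  ∀ i < m, ∀ j < n, o.getD (i * n + j) none = signOut (g [0, i, j])

/-- The state after `t` steps. -/
def pot (m n : ℕ) (c : Cand) (o : List Outcome) (t : ℕ) : PS := (lpS m n c o)^[t] (lp0 m n)

/-- A register of an entry outside the exceptional rows and columns. -/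
def Ent (m n : ℕ) (c : Cand) (r : Reg) : Prop :=
  ∃ i < m, ∃ j < n, r = [0, i, j] ∧ i ∉ c.1 ∧ j ∉ c.2

/-- The numbers `gM` are the entries after multiplication of the rows and columns. -/
def Scaled (m n : ℕ) (c : Cand) (g : Reg → ℝ) (σ : ℕ → ℝ) (gM : Reg → ℝ) : Prop :=
  (∀ v, σ v ≠ 0) ∧ ∀ i < m, ∀ j < n, i ∉ c.1 → j ∉ c.2 → gM [0, i, j] =
    σ i * g [0, i, j] * σ (m + j)

/-- Potentials: lengths and registers. -/
def S_POT1 : Prop := ∀ (m n : ℕ) (c : Cand) (g : Reg → ℝ) (o : List Outcome), OK0 m n g o →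
  ∀ t v : ℕ, (nu (pot m n c o t) v).length ≤ t ∧ (de (pot m n c o t) v).length ≤ t ∧
    (∀ r ∈ nu (pot m n c o t) v, Ent m n c r ∧ g r ≠ 0) ∧
    ∀ r ∈ de (pot m n c o t) v, Ent m n c r ∧ g r ≠ 0

/-- Potentials: at the end, adjacent vertices have the same label. -/
def S_POT2 : Prop := ∀ (m n : ℕ) (c : Cand) (g : Reg → ℝ) (o : List Outcome), OK0 m n g o →
  ∀ i < m, ∀ j < n, i ∉ c.1 → j ∉ c.2 → g [0, i, j] ≠ 0 →
    lab (pot m n c o (stp (m + n))) i = lab (pot m n c o (stp (m + n))) (m + j)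

/-- Potentials: the effect of a scaling of the rows and columns. -/
def S_POT3 : Prop := ∀ (m n : ℕ) (c : Cand) (g : Reg → ℝ) (o : List Outcome) (σ : ℕ → ℝ)
  (gM : Reg → ℝ), OK0 m n g o → Scaled m n c g σ gM →
  ∃ τ : ℕ → ℝ, (∀ v, τ v ≠ 0) ∧ ∀ t : ℕ, ∀ v < m + n,
    vl g (nu (pot m n c o t) v) * vl gM (de (pot m n c o t) v) *
        (if v < m then τ (lab (pot m n c o t) v) else (τ (lab (pot m n c o t) v))⁻¹) =
      vl gM (nu (pot m n c o t) v) * vl g (de (pot m n c o t) v) * σ v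

/-- Atoms: up to a common factor, they do not depend on the scaling. -/
def S_ATOM : Prop := ∀ (m n : ℕ) (c : Cand) (g : Reg → ℝ) (o : List Outcome), OK0 m n g o →
  vl g (aP (m + n) (pot m n c o (stp (m + n)))) ≠ 0 ∧
  (∀ v < m + n, vl g (aq (m + n) (pot m n c o (stp (m + n))) v) ≠ 0) ∧
  (∀ a ∈ at0 m n c (pot m n c o (stp (m + n))), (∀ r ∈ a, Ent m n c r) ∧
    a.length ≤ 1 + 2 * ((m + n + 1) * stp (m + n))) ∧
  ∀ (σ : ℕ → ℝ) (gM : Reg → ℝ), Scaled m n c g σ gM →
    vl gM (a1 (m + n) (pot m n c o (stp (m + n)))) ≠ 0 ∧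
    ∀ a ∈ at0 m n c (pot m n c o (stp (m + n))),
      vl g a * vl gM (a1 (m + n) (pot m n c o (stp (m + n)))) =
        vl gM a * vl g (a1 (m + n) (pot m n c o (stp (m + n))))

/-! ### Minors -/

/-- From the products of `m` atoms outside the exceptional rows and columns to the coordinates of
the basic solutions. -/
def S_MINR : Prop := ∀ (k m n T h X : ℕ) (A : Matrix (Fin m) (Fin n) ℝ) (b : Fin m → ℝ) (c : Cand)
  (x : PS) (B : List (List Reg)) (C : ℝ), c.1.length ≤ k → c.2.length ≤ k → C ≠ 0 →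
  vl (start A b) (aP (m + n) x) ≠ 0 → (∀ v < m + n, vl (start A b) (aq (m + n) x v) ≠ 0) →
  (∀ p ∈ pw (start A b) (at0 m n c x) m, SF (vs (start A b) B) X (C * p)) →
  (∀ e ∈ lfin k m n x B, e.length ≤ T) → m.factorial * X ≤ 2 ^ h →
  RatioSmall (lfin k m n x B).length h m n A b (wl (start A b) T (lfin k m n x B))

/-! ### Polynomial time -/

/-- Levels in polynomial time. -/
def S_PTLEV : Prop := ∀ (α : Type) [TEnc α] (T h J u : α → ℕ) (o1 : α → List Reg)
  (A : α → List (List Reg)), UPoly T → UPoly h → UPoly J → UPoly u → Poly o1 → Poly A →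
  PT (fun a => iter (lev (T a) (h a) (J a) (o1 a) (A a)) (u a) [[]])

/-- Potentials in polynomial time. -/
def S_PTPOT : Prop := ∀ (α : Type) [TEnc α] (U W : α → List Unit) (c : α → Cand)
  (o : α → List Outcome), Poly U → Poly W → Poly c → Poly o →
  PT (fun a => iter (fun x => (ret (lpS (U a).length (W a).length (c a) (o a) x) : TT PS))
    (stp ((U a).length + (W a).length)) (lp0 (U a).length (W a).length))

/-- Atoms and the final lists in polynomial time. -/
def S_PLIST (k : ℕ) : Prop := ∀ (α : Type) [TEnc α] (U W : α → List Unit) (c : α → Cand)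
  (x : α → PS) (B : α → List (List Reg)), Poly U → Poly W → Poly c → Poly x → Poly B →
  Poly (fun a => a1 ((U a).length + (W a).length) (x a)) ∧
  Poly (fun a => at0 (U a).length (W a).length (c a) (x a)) ∧
  Poly (fun a => lfin k (U a).length (W a).length (x a) (B a)) ∧
  Poly (fun a => supQs (U a).length (W a).length) ∧
  UPoly (fun a => gh0 k ((U a).length + (W a).length)) ∧
  UPoly (fun a => gh1 k ((U a).length + (W a).length)) ∧
  UPoly (fun a => gT k ((U a).length + (W a).length))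

/-- The control is polynomial. -/
def S_CTL (k : ℕ) : Prop := PT (fun p : List Unit × List Unit => TA k p.1.length p.2.length)

/-! ### Levels -/

/-- The class, for the registers and the choice `c` of exceptional rows and columns. -/
def GrowthR (k m n : ℕ) (c : Cand) (g : Reg → ℝ) : Prop :=
  ∃ (σ : ℕ → ℝ) (gM : Reg → ℝ) (w : ℕ → ℝ), Scaled m n c g σ gM ∧
    ∀ e : List Reg, e.length ≤ (m + n) ^ 6 → (∀ r ∈ e, Ent m n c r) → ∃ y : ℕ → ℤ,
      (∀ r < (m + n) ^ k, (y r).natAbs ≤ 2 ^ ((m + n) ^ k)) ∧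
      vl gM e = ∑ r ∈ Finset.range ((m + n) ^ k), (y r : ℝ) * w r

/-- All levels. -/
def S_LEVS (k : ℕ) : Prop := ∃ q : Polynomial ℕ, ∀ (m n : ℕ) (c : Cand) (g : Reg → ℝ)
  (o : List Outcome), 1 ≤ m → 1 ≤ n → Base g → OK0 m n g o → ∃ B : List (List Reg),
  Runs g (Gd q (m + n) g) (iter (lev (gT k (m + n)) (gh0 k (m + n)) ((m + n) ^ k)
      (a1 (m + n) (pot m n c o (stp (m + n)))) (at0 m n c (pot m n c o (stp (m + n))))) m [[]]) B
    (q.eval (m + n)) ∧
  LOK B ∧ B ≠ [] ∧ B.length ≤ (m + n) ^ k + 1 ∧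
  (∀ e ∈ B, e.length ≤ m * (1 + 2 * ((m + n + 1) * stp (m + n)))) ∧
  (GrowthR k m n c g → ∃ C : ℝ, C ≠ 0 ∧ ∀ p ∈ pw g (at0 m n c (pot m n c o (stp (m + n)))) m,
    SF (vs g B) (2 ^ ((m + n) * (gN0 k (m + n) + gB k (m + n)))) (C * p))

end Pool.Agent.TH71.GR
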